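import Mathlib

set_option autoImplicit false

namespace Pool.Agent.MP_f7ace6_lc

/-- The binary relation `L` on the naturals is co-c.e.: a universal quantifier over a computable
relation. -/
def Pi01 (L : ℕ → ℕ → Prop) : Prop :=
  ∃ C : ℕ → ℕ → ℕ → Prop, (ComputablePred fun z : ℕ × ℕ × ℕ => C z.1 z.2.1 z.2.2) ∧
    ∀ x y, L x y ↔ ∀ s, C x y s

end Pool.Agent.MP_f7ace6_lc
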