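import Mathlib

set_option autoImplicit false

namespace Pool.Agent.MP_f7ace6_lc.Dich

open Classical

variable {α : Type} [PartialOrder α] {R : ℕ → ℕ → Prop}

/-- `e` embeds the part `s` of a poset in `R`. -/
def Emb (R : ℕ → ℕ → Prop) (s : Finset α) (e : α → ℕ) : Prop :=
  ∀ i ∈ s, ∀ j ∈ s, (i ≤ j ↔ R (e i) (e j))

/-- A copy of `s` in `R` all of whose points satisfy `G`. -/
def Cp (R : ℕ → ℕ → Prop) (s : Finset α) (G : ℕ → Prop) : Prop :=
  ∃ e, Emb R s e ∧ ∀ i ∈ s, G (e i)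

theorem cp_empty (G : ℕ → Prop) : Cp R (∅ : Finset α) G :=
  ⟨fun _ => 0, fun _ h => by simp at h, fun _ h => by simp at h⟩

theorem glue {s t : Finset α} {e1 e2 : α → ℕ} {G : ℕ → Prop} (h1 : Emb R s e1) (h2 : Emb R t e2)
    (h : ∀ i ∈ s, ∀ j ∈ t, (i ≤ j ↔ R (e1 i) (e2 j)) ∧ (j ≤ i ↔ R (e2 j) (e1 i)))
    (g1 : ∀ i ∈ s, G (e1 i)) (g2 : ∀ j ∈ t, G (e2 j)) : Cp R (s ∪ t) G := by
  refine ⟨fun i => if i ∈ s then e1 i else e2 i, fun i hi j hj => ?_, fun i hi => ?_⟩
  · rw [Finset.mem_union] at hi hj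
    by_cases a : i ∈ s <;> by_cases b : j ∈ s <;> simp only [a, b, if_true, if_false]
    · exact h1 i a j b
    · exact (h i a j (hj.resolve_left b)).1
    · exact (h j b i (hi.resolve_left a)).2
    · exact h2 i (hi.resolve_left a) j (hj.resolve_left b)
  · rw [Finset.mem_union] at hi
    by_cases a : i ∈ s <;> simp only [a, if_true, if_false]
    · exact g1 i a
    · exact g2 i (hi.resolve_left a)

theorem cp_union {s t : Finset α} {e1 e2 : α → ℕ} {G : ℕ → Prop}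
    (hst : ∀ i ∈ s, ∀ j ∈ t, ¬ i ≤ j ∧ ¬ j ≤ i) (h1 : Emb R s e1) (h2 : Emb R t e2)
    (h : ∀ i ∈ s, ∀ j ∈ t, ¬ R (e1 i) (e2 j) ∧ ¬ R (e2 j) (e1 i))
    (g1 : ∀ i ∈ s, G (e1 i)) (g2 : ∀ j ∈ t, G (e2 j)) : Cp R (s ∪ t) G :=
  glue h1 h2 (fun i hi j hj => ⟨iff_of_false (hst i hi j hj).1 (h i hi j hj).1,
    iff_of_false (hst i hi j hj).2 (h i hi j hj).2⟩) g1 g2

theorem cp_top {s : Finset α} {c : α} {e : α → ℕ} {b : ℕ} {G : ℕ → Prop}
    (hc : ∀ i ∈ s, i < c) (h1 : Emb R s e) (hb : R b b)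
    (h : ∀ i ∈ s, R (e i) b ∧ ¬ R b (e i)) (g1 : ∀ i ∈ s, G (e i)) (g2 : G b) :
    Cp R (s ∪ {c}) G := by
  refine glue (e2 := fun _ => b) h1 (fun i hi j hj => ?_) (fun i hi j hj => ?_) g1 fun _ _ => g2
  · rw [Finset.mem_singleton] at hi hj
    exact iff_of_true (by rw [hi, hj]) hb
  · rw [Finset.mem_singleton.1 hj]
    exact ⟨iff_of_true (hc i hi).le (h i hi).1, iff_of_false (hc i hi).not_ge (h i hi).2⟩

theorem cp_bot {s : Finset α} {c : α} {e : α → ℕ} {b : ℕ} {G : ℕ → Prop}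
    (hc : ∀ i ∈ s, c < i) (h1 : Emb R s e) (hb : R b b)
    (h : ∀ i ∈ s, R b (e i) ∧ ¬ R (e i) b) (g1 : ∀ i ∈ s, G (e i)) (g2 : G b) :
    Cp R (s ∪ {c}) G := by
  refine glue (e2 := fun _ => b) h1 (fun i hi j hj => ?_) (fun i hi j hj => ?_) g1 fun _ _ => g2
  · rw [Finset.mem_singleton] at hi hj
    exact iff_of_true (by rw [hi, hj]) hb
  · rw [Finset.mem_singleton.1 hj]
    exact ⟨iff_of_false (hc i hi).not_ge (h i hi).2, iff_of_true (hc i hi).le (h i hi).1⟩

theorem cp_relEmb [Fintype α] {G : ℕ → Prop} (hR : ∀ x, R x x) (h : Cp R (Finset.univ : Finset α) G) :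
    Nonempty (((· ≤ ·) : α → α → Prop) ↪r R) := by
  obtain ⟨e, he, -⟩ := h
  have he' : ∀ i j, i ≤ j ↔ R (e i) (e j) := fun i j => he i (by simp) j (by simp)
  refine ⟨⟨⟨e, fun i j hij => le_antisymm ((he' i j).2 ?_) ((he' j i).2 ?_)⟩,
    fun {i j} => (he' i j).symm⟩⟩ <;> rw [hij] <;> exact hR _

theorem forest_ind (hV : ∀ a b c : α, a ≤ b → a ≤ c → b ≤ c ∨ c ≤ b) (P : Finset α → Prop)
    (h0 : P ∅)
    (hU : ∀ s t, (∀ i ∈ s, ∀ j ∈ t, ¬ i ≤ j ∧ ¬ j ≤ i) → P s → P t → P (s ∪ t))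
    (hT : ∀ s c, (∀ i ∈ s, i < c) → P s → P (s ∪ {c})) (s : Finset α) : P s := by
  induction s using Finset.strongInduction with
  | H s ih =>
    rcases s.eq_empty_or_nonempty with rfl | hne
    · exact h0
    obtain ⟨c, hc⟩ := s.exists_maximal hne
    have e : s = (s.filter (· < c) ∪ {c}) ∪ s.filter (¬ · ≤ c) := by
      ext i
      simp only [Finset.mem_union, Finset.mem_filter, Finset.mem_singleton]
      constructor
      · intro hi
        by_cases h : i ≤ c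
        · exact Or.inl (h.lt_or_eq.imp (fun h => ⟨hi, h⟩) id)
        · exact Or.inr ⟨hi, h⟩
      · rintro ((h | h) | h)
        · exact h.1
        · rw [h]; exact hc.1
        · exact h.1
    rw [e]
    refine hU _ _ (fun i hi j hj => ?_) (hT _ _ (fun i hi => (Finset.mem_filter.1 hi).2) (ih _ ?_))
      (ih _ ?_)
    · have h1 : i ≤ c := by
        rcases Finset.mem_union.1 hi with h | h
        · exact (Finset.mem_filter.1 h).2.le
        · exact (Finset.mem_singleton.1 h).le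
      obtain ⟨h2, h3⟩ := Finset.mem_filter.1 hj
      exact ⟨fun h => (hV i j c h h1).elim h3 fun k => h3 (hc.2 h2 k), fun h => h3 (h.trans h1)⟩
    · exact Finset.filter_ssubset.2 ⟨c, hc.1, lt_irrefl c⟩
    · exact Finset.filter_ssubset.2 ⟨c, hc.1, fun h => h le_rfl⟩

theorem tp_ind (hX : ∀ a b c d : α, a ≤ c → b ≤ c → b ≤ d → (a ≤ b ∨ b ≤ a) ∨ (c ≤ d ∨ d ≤ c))
    (P : Finset α → Prop) (h0 : P ∅)
    (hU : ∀ s t, (∀ i ∈ s, ∀ j ∈ t, ¬ i ≤ j ∧ ¬ j ≤ i) → P s → P t → P (s ∪ t))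
    (hT : ∀ s c, (∀ i ∈ s, i < c) → P s → P (s ∪ {c}))
    (hB : ∀ s c, (∀ i ∈ s, c < i) → P s → P (s ∪ {c})) (s : Finset α) : P s := by
  induction s using Finset.strongInduction with
  | H s ih =>
    rcases s.eq_empty_or_nonempty with rfl | hne
    · exact h0
    obtain ⟨v, hv, hmax⟩ := s.exists_max_image (fun v => (s.filter fun u => u ≤ v ∨ v ≤ u).card) hne
    by_cases hall : ∀ u ∈ s, u ≤ v ∨ v ≤ u
    · have hdel : ∀ c ∈ s, s = s.erase c ∪ {c} := fun c hc => by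
        rw [Finset.union_comm, ← Finset.insert_eq, Finset.insert_erase hc]
      by_cases htop : ∃ c ∈ s, ∀ i ∈ s, i ≤ c
      · obtain ⟨c, hc, h⟩ := htop
        rw [hdel c hc]
        exact hT _ _ (fun i hi => lt_of_le_of_ne (h i (Finset.mem_erase.1 hi).2)
          (Finset.mem_erase.1 hi).1) (ih _ (Finset.erase_ssubset hc))
      by_cases hbot : ∃ c ∈ s, ∀ i ∈ s, c ≤ i
      · obtain ⟨c, hc, h⟩ := hbot
        rw [hdel c hc]
        exact hB _ _ (fun i hi => lt_of_le_of_ne (h i (Finset.mem_erase.1 hi).2)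
          (Finset.mem_erase.1 hi).1.symm) (ih _ (Finset.erase_ssubset hc))
      exfalso
      push Not at htop hbot
      obtain ⟨c, hc⟩ := s.exists_maximal hne
      obtain ⟨b, hb⟩ := s.exists_minimal hne
      obtain ⟨d, hd, hdc⟩ := htop c hc.1
      obtain ⟨a, ha, hba⟩ := hbot b hb.1
      have h1 : v ≤ c := (hall c hc.1).elim (fun h => hc.2 hv h) id
      have h2 : b ≤ v := (hall b hb.1).elim id fun h => hb.2 hv h
      have h3 : v ≤ d := (hall d hd).resolve_left fun h => hdc (h.trans h1)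
      have h4 : a ≤ v := (hall a ha).resolve_right fun h => hba (h2.trans h)
      rcases hX a b c d (h4.trans h1) (h2.trans h1) (h2.trans h3) with (h | h) | h | h
      · exact hba (hb.2 ha h)
      · exact hba h
      · exact hdc (hc.2 hd h)
      · exact hdc h
    · rw [← Finset.filter_union_filter_not_eq (fun u => u ≤ v ∨ v ≤ u) s]
      push Not at hall
      obtain ⟨w0, hw0, hw1⟩ := hall
      refine hU _ _ (fun u hu w hw => ?_) (ih _ ?_) (ih _ ?_)
      · obtain ⟨hu1, hu2⟩ := Finset.mem_filter.1 hu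
        obtain ⟨hw2, hw3⟩ := Finset.mem_filter.1 hw
        by_contra hcon
        have hcmp : w ≤ u ∨ u ≤ w := by tauto
        obtain ⟨x, hx, hx2, hx3⟩ : ∃ x ∈ s, (x ≤ v ∨ v ≤ x) ∧ ¬ (x ≤ u ∨ u ≤ x) := by
          by_contra hno
          push Not at hno
          have hsub : (s.filter fun z => z ≤ v ∨ v ≤ z) ⊂ s.filter fun z => z ≤ u ∨ u ≤ z := by
            refine ⟨fun z hz => ?_, fun h => ?_⟩
            · obtain ⟨k1, k2⟩ := Finset.mem_filter.1 hz
              exact Finset.mem_filter.2 ⟨k1, hno z k1 k2⟩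
            · exact hw3 (Finset.mem_filter.1 (h (Finset.mem_filter.2 ⟨hw2, hcmp⟩))).2
          exact absurd (hmax u hu1) (not_le.2 (Finset.card_lt_card hsub))
        rcases hu2 with h | h
        · have k1 : u ≤ w := hcmp.resolve_left fun k => hw3 (Or.inl (k.trans h))
          have k2 : x ≤ v := hx2.resolve_right fun k => hx3 (Or.inr (h.trans k))
          rcases hX x u v w k2 h k1 with k | k
          · exact hx3 k
          · exact hw3 k.symm
        · have k1 : w ≤ u := hcmp.resolve_right fun k => hw3 (Or.inr (h.trans k))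
          have k2 : v ≤ x := hx2.resolve_left fun k => hx3 (Or.inl (k.trans h))
          rcases hX w v u x k1 h k2 with k | k
          · exact hw3 k
          · exact hx3 k.symm
      · exact Finset.filter_ssubset.2 ⟨w0, hw0, by tauto⟩
      · exact Finset.filter_ssubset.2 ⟨v, hv, fun h => h (Or.inl le_rfl)⟩

end Pool.Agent.MP_f7ace6_lc.Dich
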