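import Pool.Agent.Mg.Ff7ace6.Gcce435

set_option autoImplicit false

namespace Pool.Agent.MP_f7ace6_lc.Dich

open Encodable Classical

/-- The least `r` in the class of `x` with `T r x`. -/
noncomputable def rootF (T : ℕ → ℕ → Prop) (c : ℕ → ℕ) (x : ℕ) : ℕ :=
  Nat.find (p := fun r => x ≤ r ∨ (c r = c x ∧ T r x)) ⟨x, Or.inl le_rfl⟩

/-- The key of a root level. -/
noncomputable def rkey (T : ℕ → ℕ → Prop) (c : ℕ → ℕ) (x : ℕ) : ℕ :=
  2 * rootF T c x + if x = rootF T c x then 1 else 0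

/-- The key of a level of mode `md`. -/
noncomputable def key (R : ℕ → ℕ → Prop) (md : ℕ) (c : ℕ → ℕ) (x : ℕ) : ℕ :=
  if md = 0 then rkey R c x
  else if md = 1 then rkey (fun a b => R b a) c x
  else 2 * (if R (md - 2) x then 1 else 0) + if R x (md - 2) then 0 else 1

/-- The code of the class of level `k`. -/
noncomputable def cls (R : ℕ → ℕ → Prop) (m : ℕ → ℕ) (k : ℕ) : ℕ → ℕ :=
  Nat.rec (motive := fun _ => ℕ → ℕ) (fun _ => 0)
    (fun i c x => Nat.pair (c x) (key R (m i) c x)) k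

/-- The signed key of level `k`. -/
noncomputable def kz (R : ℕ → ℕ → Prop) (m : ℕ → ℕ) (k x : ℕ) : ℤ :=
  if m k = 0 then -(key R (m k) (cls R m k) x : ℤ) else key R (m k) (cls R m k) x

/-- The lexicographic order of the keys. -/
def LK (R : ℕ → ℕ → Prop) (m : ℕ → ℕ) (x y : ℕ) : Prop :=
  ∀ k, cls R m k x = cls R m k y → kz R m k x ≤ kz R m k y

section
variable {T : ℕ → ℕ → Prop} {c : ℕ → ℕ}

theorem rootF_le (x : ℕ) : rootF T c x ≤ x := Nat.find_min' _ (Or.inl le_rfl)

theorem rootF_min {x r : ℕ} (h : c r = c x) (h' : T r x) : rootF T c x ≤ r :=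
  Nat.find_min' _ (Or.inr ⟨h, h'⟩)

theorem rootF_spec (hT : ∀ x, T x x) (x : ℕ) : c (rootF T c x) = c x ∧ T (rootF T c x) x := by
  rcases Nat.find_spec (p := fun r => x ≤ r ∨ (c r = c x ∧ T r x)) ⟨x, Or.inl le_rfl⟩ with h | h
  · have e : rootF T c x = x := le_antisymm (rootF_le x) h
    rw [e]; exact ⟨rfl, hT x⟩
  · exact h

theorem rootF_congr {c' : ℕ → ℕ} (x : ℕ) (h : ∀ r ≤ x, c r = c' r) :
    rootF T c x = rootF T c' x := by
  refine Nat.find_congr' fun {r} => ?_
  by_cases hr : x ≤ r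
  · simp [hr]
  · rw [h r (by omega), h x le_rfl]

theorem rkey_mono (hT : ∀ x, T x x) (ht : ∀ x y z, T x y → T y z → T x z)
    (ha : ∀ x y, T x y → T y x → x = y) {x y : ℕ} (hc : c x = c y) (h : T x y) :
    rkey T c y ≤ rkey T c x := by
  obtain ⟨h1, h2⟩ := rootF_spec (c := c) hT x
  have h3 : rootF T c y ≤ rootF T c x := rootF_min (h1.trans hc) (ht _ _ _ h2 h)
  unfold rkey
  by_cases hy : y = rootF T c y
  · by_cases he : rootF T c y = rootF T c x
    · have : x = y := ha _ _ h (by rw [hy, he]; exact h2)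
      subst this; exact le_rfl
    · split_ifs <;> omega
  · split_ifs <;> omega

theorem rkey_eq {x y : ℕ} (h : rkey T c x = rkey T c y) (hne : x ≠ y) :
    rootF T c x = rootF T c y ∧ x ≠ rootF T c x := by
  unfold rkey at h
  split_ifs at h <;> omega

end

section
variable {R : ℕ → ℕ → Prop} {m : ℕ → ℕ}

theorem key_congr {c c' : ℕ → ℕ} (md x : ℕ) (h : ∀ r ≤ x, c r = c' r) :
    key R md c x = key R md c' x := by
  unfold key rkey
  rw [rootF_congr x h, rootF_congr (T := fun a b => R b a) x h]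

theorem cls_succ (k x : ℕ) :
    cls R m (k + 1) x = Nat.pair (cls R m k x) (key R (m k) (cls R m k) x) := rfl

theorem cls_succ_key (k x y : ℕ) : cls R m (k + 1) x = cls R m (k + 1) y ↔
    cls R m k x = cls R m k y ∧ key R (m k) (cls R m k) x = key R (m k) (cls R m k) y := by
  rw [cls_succ, cls_succ, Nat.pair_eq_pair]

theorem cls_succ_iff (k x y : ℕ) : cls R m (k + 1) x = cls R m (k + 1) y ↔
    cls R m k x = cls R m k y ∧ kz R m k x = kz R m k y := by
  rw [cls_succ_key]
  unfold kz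
  split_ifs <;> simp

theorem cls_mono {k k' x y : ℕ} (hk : k ≤ k') (h : cls R m k' x = cls R m k' y) :
    cls R m k x = cls R m k y := by
  induction k', hk using Nat.le_induction with
  | base => exact h
  | succ n _ ih => exact ih ((cls_succ_iff n x y).1 h).1

theorem kz_mono (hR : IsPartialOrder ℕ R) {k x y : ℕ} (hc : cls R m k x = cls R m k y)
    (h : R x y) : kz R m k x ≤ kz R m k y := by
  unfold kz key
  by_cases h0 : m k = 0
  · have := rkey_mono hR.refl hR.trans (fun x y => hR.antisymm x y) hc h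
    simp only [h0, if_true]; omega
  · by_cases h1 : m k = 1
    · have := rkey_mono (T := fun a b => R b a) hR.refl (fun x y z a b => hR.trans _ _ _ b a)
        (fun x y a b => hR.antisymm x y b a) hc.symm h
      simp only [h1, if_true, one_ne_zero, if_false]; omega
    · have t1 : R (m k - 2) x → R (m k - 2) y := fun a => hR.trans _ _ _ a h
      have t2 : R y (m k - 2) → R x (m k - 2) := fun a => hR.trans _ _ _ h a
      simp only [h0, h1, if_false]
      split_ifs <;> first | omega | tauto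

theorem root_low (hR : IsPartialOrder ℕ R) {k : ℕ} (hk : m k = 0) {x y : ℕ} (hne : x ≠ y)
    (h : cls R m (k + 1) x = cls R m (k + 1) y) :
    ∃ a, a < x ∧ cls R m k a = cls R m k x ∧
      ∀ z, cls R m (k + 1) z = cls R m (k + 1) x → R a z ∧ a ≠ z := by
  have hk' : ∀ z, key R (m k) (cls R m k) z = rkey R (cls R m k) z := fun z => by
    unfold key; rw [if_pos hk]
  have h1 := ((cls_succ_key k x y).1 h).2
  rw [hk', hk'] at h1
  have h2 := (rkey_eq h1 hne).2
  have h3 := rootF_le (T := R) (c := cls R m k) x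
  refine ⟨rootF R (cls R m k) x, by omega, (rootF_spec hR.refl x).1, fun z hz => ?_⟩
  by_cases hzx : z = x
  · rw [hzx]; exact ⟨(rootF_spec hR.refl x).2, h2.symm⟩
  · have h4 := ((cls_succ_key k z x).1 hz).2
    rw [hk', hk'] at h4
    obtain ⟨h5, h6⟩ := rkey_eq h4 hzx
    rw [← h5]; exact ⟨(rootF_spec hR.refl z).2, h6.symm⟩

theorem root_high (hR : IsPartialOrder ℕ R) {k : ℕ} (hk : m k = 1) {x y : ℕ} (hne : x ≠ y)
    (h : cls R m (k + 1) x = cls R m (k + 1) y) :
    ∃ a, a < x ∧ cls R m k a = cls R m k x ∧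
      ∀ z, cls R m (k + 1) z = cls R m (k + 1) x → R z a ∧ a ≠ z := by
  have hk' : ∀ z, key R (m k) (cls R m k) z = rkey (fun a b => R b a) (cls R m k) z := fun z => by
    unfold key; rw [if_neg (by omega), if_pos hk]
  have h1 := ((cls_succ_key k x y).1 h).2
  rw [hk', hk'] at h1
  have h2 := (rkey_eq h1 hne).2
  have h3 := rootF_le (T := fun a b => R b a) (c := cls R m k) x
  have hr := rootF_spec (T := fun a b => R b a) (c := cls R m k) hR.refl
  refine ⟨rootF (fun a b => R b a) (cls R m k) x, by omega, (hr x).1, fun z hz => ?_⟩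
  by_cases hzx : z = x
  · rw [hzx]; exact ⟨(hr x).2, h2.symm⟩
  · have h4 := ((cls_succ_key k z x).1 hz).2
    rw [hk', hk'] at h4
    obtain ⟨h5, h6⟩ := rkey_eq h4 hzx
    rw [← h5]; exact ⟨(hr z).2, h6.symm⟩

theorem unif {k j : ℕ} (hk : m k = j + 2) {x y : ℕ}
    (h : cls R m (k + 1) x = cls R m (k + 1) y) : (R j x ↔ R j y) ∧ (R x j ↔ R y j) := by
  have h1 := ((cls_succ_key k x y).1 h).2
  unfold key at h1
  rw [hk] at h1
  simp only [show j + 2 ≠ 0 by omega, show j + 2 ≠ 1 by omega, if_false, Nat.add_sub_cancel] at h1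
  split_ifs at h1 <;> first | omega | tauto

theorem deep (hR : IsPartialOrder ℕ R) (hm : ∀ k, ∃ k', k ≤ k' ∧ m k' = 1) (j : ℕ) :
    ∃ k, ∀ x y, cls R m k x = cls R m k y → x ≠ y → j ≤ x := by
  induction j with
  | zero => exact ⟨0, fun _ _ _ _ => Nat.zero_le _⟩
  | succ j ih =>
    obtain ⟨k, hk⟩ := ih
    obtain ⟨k', h1, h2⟩ := hm k
    refine ⟨k' + 1, fun x y h hne => ?_⟩
    obtain ⟨a, h3, h4, -⟩ := root_high hR h2 hne h
    have := hk a x (cls_mono h1 h4) (by omega)
    omega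

theorem sep (hR : IsPartialOrder ℕ R) (hm : ∀ k, ∃ k', k ≤ k' ∧ m k' = 1) {x y : ℕ}
    (h : ∀ k, cls R m k x = cls R m k y) : x = y := by
  by_contra hne
  obtain ⟨k, hk⟩ := deep hR hm (x + 1)
  have := hk x y (h k) hne
  omega

theorem convex {k x y z : ℕ} (h : cls R m k x = cls R m k z) (h1 : LK R m x y)
    (h2 : LK R m y z) : cls R m k x = cls R m k y := by
  induction k with
  | zero => rfl
  | succ k ih =>
    obtain ⟨h3, h4⟩ := (cls_succ_iff k x z).1 h
    have h5 := ih h3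
    have h6 := h1 k h5
    have h7 := h2 k (h5.symm.trans h3)
    exact (cls_succ_iff k x y).2 ⟨h5, by omega⟩

theorem LK_transfer {k x y x' y' : ℕ} (hne : cls R m k x ≠ cls R m k y) (h : LK R m x y)
    (hx : cls R m k x' = cls R m k x) (hy : cls R m k y' = cls R m k y) : LK R m x' y' := by
  intro i hi
  by_cases hik : k ≤ i
  · exact absurd (hx.symm.trans ((cls_mono hik hi).trans hy)) hne
  · have h1 := (cls_succ_iff i x' x).1 (cls_mono (by omega) hx)
    have h2 := (cls_succ_iff i y' y).1 (cls_mono (by omega) hy)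
    rw [h1.2, h2.2]
    exact h i (h1.1.symm.trans (hi.trans h2.1))

theorem LK_iff {k x y : ℕ} (h1 : cls R m k x = cls R m k y)
    (h2 : cls R m (k + 1) x ≠ cls R m (k + 1) y) : LK R m x y ↔ kz R m k x ≤ kz R m k y := by
  refine ⟨fun h => h k h1, fun h i hi => ?_⟩
  rcases lt_trichotomy i k with hik | rfl | hik
  · exact ((cls_succ_iff i x y).1 (cls_mono (by omega) h1)).2.le
  · exact h
  · exact absurd (cls_mono (by omega) hi) h2

theorem exists_split (hR : IsPartialOrder ℕ R) (hm : ∀ k, ∃ k', k ≤ k' ∧ m k' = 1) {x y : ℕ}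
    (hne : x ≠ y) :
    ∃ k, cls R m k x = cls R m k y ∧ cls R m (k + 1) x ≠ cls R m (k + 1) y := by
  by_contra hc
  push Not at hc
  refine hne (sep hR hm fun k => ?_)
  induction k with
  | zero => rfl
  | succ k ih => exact hc k ih

theorem LK_linExt (hR : IsPartialOrder ℕ R) (hm : ∀ k, ∃ k', k ≤ k' ∧ m k' = 1) :
    LinExt R (LK R m) := by
  refine ⟨?_, fun x y h k hk => kz_mono hR hk h⟩
  exact
    { refl := fun x k _ => le_rfl
      trans := fun x y z h1 h2 k hk =>
        (h1 k (convex hk h1 h2)).trans (h2 k ((convex hk h1 h2).symm.trans hk))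
      antisymm := fun x y h1 h2 => by
        by_contra hne
        obtain ⟨k, h3, h4⟩ := exists_split hR hm hne
        exact h4 ((cls_succ_iff k x y).2 ⟨h3, le_antisymm (h1 k h3) (h2 k h3.symm)⟩)
      total := fun x y => by
        by_cases hne : x = y
        · subst hne; exact Or.inl fun k _ => le_rfl
        · obtain ⟨k, h3, h4⟩ := exists_split hR hm hne
          rw [LK_iff h3 h4, LK_iff h3.symm h4.symm]
          exact le_total _ _ }

end

section
variable {α : Type} [Primcodable α] {O : Set (ℕ →. ℕ)}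

theorem c_rkey {T : ℕ → ℕ → Prop} (hT : PIn O fun z : ℕ × ℕ => T z.1 z.2) {C : α → ℕ → ℕ}
    (hC : ComputableIn O fun z : α × ℕ => C z.1 z.2) {x : α → ℕ} (hx : ComputableIn O x) :
    ComputableIn O fun a => rkey T (C a) (x a) := by
  have h : ComputableIn O fun a => rootF T (C a) (x a) := by
    unfold rootF
    refine p_find (P := fun a r => x a ≤ r ∨ (C a r = C a (x a) ∧ T r (x a))) ?_ _
    refine p_or (by fun_prop) (p_and (p_eq hC ?_) (p_rel hT (by fun_prop) (by fun_prop)))
    exact c_comp (g := fun z : α × ℕ => (z.1, x z.1)) hC (by fun_prop)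
  unfold rkey
  fun_prop

theorem c_key {R : ℕ → ℕ → Prop} (hR : PIn O fun z : ℕ × ℕ => R z.1 z.2) {C : α → ℕ → ℕ}
    (hC : ComputableIn O fun z : α × ℕ => C z.1 z.2) {x md : α → ℕ} (hx : ComputableIn O x)
    (hmd : ComputableIn O md) : ComputableIn O fun a => key R (md a) (C a) (x a) := by
  unfold key
  refine c_ite (by fun_prop) (c_rkey hR hC hx) (c_ite (by fun_prop)
    (c_rkey (T := fun a b => R b a) (p_rel hR (by fun_prop) (by fun_prop)) hC hx) ?_)
  exact c_add (c_mul (c_const 2) (c_ite (p_rel hR (by fun_prop) hx) (c_const 1) (c_const 0)))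
    (c_ite (p_rel hR hx (by fun_prop)) (c_const 0) (c_const 1))

end

/-- One step of the table of class codes. -/
noncomputable def stp (R : ℕ → ℕ → Prop) (m : ℕ → ℕ) (l : List ℕ) (n : ℕ) : ℕ :=
  if n.unpair.1 = 0 then 0 else
    Nat.pair (l.getD (Nat.pair (n.unpair.1 - 1) n.unpair.2) 0)
      (key R (m (n.unpair.1 - 1)) (fun r => l.getD (Nat.pair (n.unpair.1 - 1) r) 0) n.unpair.2)

/-- The table of class codes. -/
noncomputable def tab (R : ℕ → ℕ → Prop) (m : ℕ → ℕ) (n : ℕ) : List ℕ :=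
  Nat.rec (motive := fun _ => List ℕ) [] (fun i l => l ++ [stp R m l i]) n

section
variable {R : ℕ → ℕ → Prop} {m : ℕ → ℕ}

theorem tab_spec (n : ℕ) : (tab R m n).length = n ∧
    ∀ i < n, (tab R m n).getD i 0 = cls R m i.unpair.1 i.unpair.2 := by
  induction n with
  | zero => exact ⟨rfl, fun i hi => by omega⟩
  | succ n ih =>
    have e : tab R m (n + 1) = tab R m n ++ [stp R m (tab R m n) n] := rfl
    refine ⟨by rw [e]; simp [ih.1], fun i hi => ?_⟩
    rw [e]
    rcases Nat.lt_succ_iff_lt_or_eq.1 hi with h1 | h1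
    · rw [List.getD_append _ _ _ _ (by rw [ih.1]; exact h1), ih.2 i h1]
    · rw [List.getD_append_right _ _ _ _ (by rw [ih.1]; omega), ih.1, h1]
      simp only [Nat.sub_self, List.getD_cons_zero]
      unfold stp
      obtain ⟨k, x, rfl⟩ : ∃ k x, n = Nat.pair k x := ⟨_, _, (Nat.pair_unpair n).symm⟩
      simp only [Nat.unpair_pair]
      rcases k with _ | k
      · rfl
      · have hl : ∀ r ≤ x, (tab R m (Nat.pair (k + 1) x)).getD (Nat.pair k r) 0 = cls R m k r := by
          intro r hr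
          have h2 : Nat.pair k r ≤ Nat.pair k x := by
            rcases hr.lt_or_eq with h | h
            · exact (Nat.pair_lt_pair_right k h).le
            · rw [h]
          have h3 : Nat.pair k x < Nat.pair (k + 1) x := Nat.pair_lt_pair_left x (by omega)
          simpa using ih.2 (Nat.pair k r) (by omega)
        rw [if_neg (by omega), Nat.add_sub_cancel, cls_succ, hl x le_rfl, key_congr _ x hl]

theorem c_cls (hR : PIn ∅ fun z : ℕ × ℕ => R z.1 z.2) (hm : ComputableIn ∅ m) :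
    ComputableIn ∅ fun z : ℕ × ℕ => cls R m z.1 z.2 := by
  have h1 : ComputableIn ∅ (tab R m) := by
    unfold tab
    refine ci_rec (f := fun p : ℕ => p) (h := fun _ i l => l ++ [stp R m l i]) c_id (c_const [])
      (c_append (by fun_prop) (c_cons ?_ (c_const [])))
    unfold stp
    refine c_ite (by fun_prop) (c_const 0) (c_npair (by fun_prop) ?_)
    exact c_key (C := fun (z : ℕ × ℕ × List ℕ) r => z.2.2.getD (Nat.pair (z.2.1.unpair.1 - 1) r) 0)
      hR (by fun_prop) (by fun_prop) (by fun_prop)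
  refine ci_of_eq (f := fun z : ℕ × ℕ => (tab R m (Nat.pair z.1 z.2 + 1)).getD (Nat.pair z.1 z.2) 0)
    (by fun_prop) fun z => ?_
  simpa using (tab_spec (R := R) (m := m) (Nat.pair z.1 z.2 + 1)).2 _ (Nat.lt_succ_self _)

theorem p_LK (hR : CompPoset R) (hc : ComputableIn ∅ m) (hm : ∀ k, ∃ k', k ≤ k' ∧ m k' = 1) :
    PIn ∅ fun z : ℕ × ℕ => LK R m z.1 z.2 := by
  have hC := c_cls (p_of_computablePred hR.2) hc
  have hC' : ∀ {f g : (ℕ × ℕ) × ℕ → ℕ}, ComputableIn ∅ f → ComputableIn ∅ g →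
      ComputableIn ∅ fun a => cls R m (f a) (g a) := fun hf hg => c_comp hC (c_pair hf hg)
  have hC2 : ∀ {f g : ℕ × ℕ → ℕ}, ComputableIn ∅ f → ComputableIn ∅ g →
      ComputableIn ∅ fun a => cls R m (f a) (g a) := fun hf hg => c_comp hC (c_pair hf hg)
  obtain ⟨Z, hZ, hs⟩ := p_choose (O := ∅) (P := fun (z : ℕ × ℕ) k => z.1 = z.2 ∨
      (cls R m k z.1 = cls R m k z.2 ∧ cls R m (k + 1) z.1 ≠ cls R m (k + 1) z.2))
    (p_or (by fun_prop) (p_and (p_eq (hC' (by fun_prop) (by fun_prop))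
      (hC' (by fun_prop) (by fun_prop))) (p_ne (hC' (by fun_prop) (by fun_prop))
      (hC' (by fun_prop) (by fun_prop)))))
    (fun z => by
      by_cases h : z.1 = z.2
      · exact ⟨0, Or.inl h⟩
      · exact (exists_split hR.1 hm h).imp fun k hk => Or.inr hk)
  have h1 : ComputableIn ∅ fun z : ℕ × ℕ => (cls R m (Z z + 1) z.1).unpair.2 :=
    c_snd (c_unpair (hC2 (by fun_prop) (by fun_prop)))
  have h2 : ComputableIn ∅ fun z : ℕ × ℕ => (cls R m (Z z + 1) z.2).unpair.2 :=
    c_snd (c_unpair (hC2 (by fun_prop) (by fun_prop)))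
  refine PIn.of_iff (p := fun z : ℕ × ℕ => z.1 = z.2 ∨
    ((m (Z z) = 0 → (cls R m (Z z + 1) z.2).unpair.2 ≤ (cls R m (Z z + 1) z.1).unpair.2) ∧
    (m (Z z) ≠ 0 → (cls R m (Z z + 1) z.1).unpair.2 ≤ (cls R m (Z z + 1) z.2).unpair.2)))
    (p_or (by fun_prop) (p_and (p_imp (by fun_prop) (p_le h2 h1))
      (p_imp (by fun_prop) (p_le h1 h2)))) fun z => ?_
  by_cases h : z.1 = z.2
  · simp only [h, true_or, true_iff]
    exact fun k _ => le_rfl
  · obtain ⟨h3, h4⟩ := (hs z).1.resolve_left h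
    rw [LK_iff h3 h4, cls_succ, cls_succ]
    unfold kz
    simp only [Nat.unpair_pair, h, false_or]
    split_ifs with h0 <;> simp [h0]

end

end Pool.Agent.MP_f7ace6_lc.Dich
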