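import Pool.Agent.MP_f7ace6_lc.DWF

set_option autoImplicit false

namespace Pool.Agent.MP_f7ace6_lc.Dich

open Encodable Classical Nat.Partrec

theorem eta_of_tree {σ : Type} [Primcodable σ] {R : ℕ → ℕ → Prop} {nx : σ → ℕ → σ} {pt : σ → ℕ}
    (V : σ → Prop) (In : σ → ℕ → Prop) (c0 : σ)
    (hnx : ComputableIn ∅ fun z : σ × ℕ => nx z.1 z.2) (hpt : ComputableIn ∅ pt) (h0 : V c0)
    (hV : ∀ c b, b ≤ 1 → V c → V (nx c b)) (hin : ∀ c, V c → In c (pt c))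
    (hsub : ∀ c b y, b ≤ 1 → V c → In (nx c b) y → In c y)
    (hlt : ∀ c y z, V c → In (nx c 0) y → In (nx c 1) z → R y z ∧ y ≠ z) :
    ¬ CompScattered R := by
  intro hsc
  obtain ⟨B, hB⟩ : ∃ B : ℚ → ℕ → ℕ, ∀ q i, B q i =
      if i % 2 = 0 then (if ratOf (i / 2) < q then 1 else 0)
      else (if q < ratOf (i / 2) then 0 else 1) := ⟨_, fun _ _ => rfl⟩
  have hBc : ComputableIn ∅ fun p : ℕ × ℕ => B (ratOf p.1) p.2 := by
    refine ci_of_eq (f := fun p : ℕ × ℕ => if p.2 % 2 = 0 then (if rlt (p.2 / 2) p.1 then 1 else 0)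
      else (if rlt p.1 (p.2 / 2) then 0 else 1)) (by fun_prop) fun p => ?_
    rw [hB, rlt_iff, rlt_iff]
    congr
  have hB1 : ∀ q i, B q i ≤ 1 := fun q i => by rw [hB]; split_ifs <;> omega
  have hBm : ∀ p q, p < q → ∀ i, B p i ≤ B q i := fun p q hpq i => by
    rw [hB, hB]
    split_ifs <;> first | omega | (exfalso; linarith)
  obtain ⟨N, hN⟩ : ∃ N : ℚ → ℕ, ∀ q, N q = Nat.find (ratOf_surj q) := ⟨_, fun _ => rfl⟩
  have hNs : ∀ q, ratOf (N q) = q := fun q => by rw [hN]; exact Nat.find_spec (ratOf_surj q)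
  have hNc : ComputableIn ∅ fun z => N (ratOf z) := by
    simp only [hN]
    refine p_find (P := fun z n => ratOf n = ratOf z) ?_ fun z => ratOf_surj (ratOf z)
    refine PIn.of_iff (p := fun p : ℕ × ℕ => ¬ rlt p.1 p.2 ∧ ¬ rlt p.2 p.1) (by fun_prop) fun p => ?_
    rw [rlt_iff, rlt_iff, not_lt, not_lt]
    exact ⟨fun h => le_antisymm h.1 h.2, fun h => ⟨h.le, h.ge⟩⟩
  obtain ⟨st, hst⟩ : ∃ st : ℚ → ℕ → σ, ∀ q n, st q n =
      Nat.rec (motive := fun _ => σ) c0 (fun i c => nx c (B q i)) n := ⟨_, fun _ _ => rfl⟩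
  have st0 : ∀ q, st q 0 = c0 := fun q => hst q 0
  have sts : ∀ q n, st q (n + 1) = nx (st q n) (B q n) := fun q n => by rw [hst, hst]
  have stV : ∀ q n, V (st q n) := by
    intro q n
    induction n with
    | zero => rw [st0]; exact h0
    | succ n ih => rw [sts]; exact hV _ _ (hB1 _ _) ih
  have stI : ∀ q a b y, a ≤ b → In (st q b) y → In (st q a) y := by
    intro q a b y hab
    induction b, hab using Nat.le_induction with
    | base => exact id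
    | succ b _ ih => rw [sts]; exact fun h => ih (hsub _ _ _ (hB1 _ _) (stV q b) h)
  have stC : ∀ p q n, (∀ i < n, B p i = B q i) → st p n = st q n := by
    intro p q n h
    induction n with
    | zero => rw [st0, st0]
    | succ n ih => rw [sts, sts, ih fun i hi => h i (by omega), h n (by omega)]
  have hs : ∀ p q, p < q → R (pt (st p (2 * N p + 2))) (pt (st q (2 * N q + 2))) ∧
      pt (st p (2 * N p + 2)) ≠ pt (st q (2 * N q + 2)) := by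
    intro p q hpq
    have d1 : B p (2 * N p) ≠ B q (2 * N p) := by
      rw [hB, hB, if_pos (by omega), if_pos (by omega : (2 * N p) % 2 = 0),
        show (2 * N p) / 2 = N p by omega, hNs, if_neg (lt_irrefl _), if_pos hpq]
      decide
    have d2 : B p (2 * N q + 1) ≠ B q (2 * N q + 1) := by
      rw [hB, hB, if_neg (by omega), if_neg (by omega : ¬ (2 * N q + 1) % 2 = 0),
        show (2 * N q + 1) / 2 = N q by omega, hNs, if_pos hpq, if_neg (lt_irrefl _)]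
      decide
    have hex : ∃ i, B p i ≠ B q i := ⟨_, d1⟩
    have k1 := Nat.find_min' hex d1
    have k2 := Nat.find_min' hex d2
    have k3 := Nat.find_spec hex
    have k4 := hBm p q hpq (Nat.find hex)
    have k5 := hB1 q (Nat.find hex)
    have e := stC p q (Nat.find hex) fun i hi => not_not.1 (Nat.find_min hex hi)
    have i1 := stI p (Nat.find hex + 1) _ _ (by omega) (hin _ (stV p (2 * N p + 2)))
    have i2 := stI q (Nat.find hex + 1) _ _ (by omega) (hin _ (stV q (2 * N q + 2)))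
    rw [sts, show B p (Nat.find hex) = 0 by omega] at i1
    rw [sts, show B q (Nat.find hex) = 1 by omega, ← e] at i2
    exact hlt _ _ _ (stV p _) i1 i2
  refine hsc ⟨fun q => pt (st q (2 * N q + 2)), ?_, fun p q hpq => ?_, hs⟩
  · refine ci_empty.1 (c_comp hpt ?_)
    simp only [hst]
    refine ci_rec (h := fun z i c => nx c (B (ratOf z) i)) (c_add (c_mul (c_const 2) hNc) (c_const 2))
      (c_const c0) ?_
    exact c_comp (g := fun z : ℕ × ℕ × σ => (z.2.2, B (ratOf z.1) z.2.1)) hnx (c_pair (by fun_prop)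
      (c_comp (g := fun z : ℕ × ℕ × σ => (z.1, z.2.1)) hBc (by fun_prop)))
  · by_contra hne
    rcases lt_or_gt_of_ne hne with h | h
    · exact (hs _ _ h).2 hpq
    · exact (hs _ _ h).2 hpq.symm

theorem tp_copy {R : ℕ → ℕ → Prop} (hR : IsPartialOrder ℕ R) {Th : Set (Set ℕ)} (hne : Th.Nonempty)
    (t1 : ∀ S ∈ Th, ∃ S1 ∈ Th, ∃ S2 ∈ Th, S1 ⊆ S ∧ S2 ⊆ S ∧ ∀ y ∈ S1, ∀ z ∈ S2, ¬ R z y)
    (t2 : ∀ S ∈ Th, ∀ j, ∃ S' ∈ Th, S' ⊆ S ∧
      ∀ y ∈ S', ∀ z ∈ S', (R j y ↔ R j z) ∧ (R y j ↔ R z j))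
    (t3 : ∀ S ∈ Th, ∃ a ∈ S, ∃ S' ∈ Th, S' ⊆ S ∧ ∀ y ∈ S', R a y ∧ a ≠ y)
    (t4 : ∀ S ∈ Th, ∃ a ∈ S, ∃ S' ∈ Th, S' ⊆ S ∧ ∀ y ∈ S', R y a ∧ a ≠ y)
    (t5 : ∀ S0 ∈ Th, ∃ S ∈ Th, S ⊆ S0 ∧ ∀ a, ∀ S1 ∈ Th, ∀ S2 ∈ Th, S1 ⊆ S → S2 ⊆ S →
      (∀ y ∈ S1, R y a ∧ ¬ R a y) → ¬ ∀ y ∈ S2, R a y)
    {α : Type} [PartialOrder α]
    (hX : ∀ a b c d : α, a ≤ c → b ≤ c → b ≤ d → (a ≤ b ∨ b ≤ a) ∨ (c ≤ d ∨ d ≤ c))
    (s : Finset α) : Cp R s fun _ => True := by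
  have cpm : ∀ {s : Finset α} {G G' : ℕ → Prop}, Cp R s G → (∀ z, G z → G' z) → Cp R s G' :=
    fun ⟨e, h1, h2⟩ h => ⟨e, h1, fun i hi => h _ (h2 i hi)⟩
  by_cases hcase : ∀ S ∈ Th, ∃ S1 ∈ Th, ∃ S2 ∈ Th, S1 ⊆ S ∧ S2 ⊆ S ∧
      ∀ y ∈ S1, ∀ z ∈ S2, ¬ R y z ∧ ¬ R z y
  · have key : ∀ S ∈ Th, Cp R s fun z => z ∈ S := by
      induction s using tp_ind hX with
      | h0 => exact fun S _ => cp_empty _
      | hU s t hst ihs iht =>
        intro S hS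
        obtain ⟨S1, h1, S2, h2, k1, k2, k3⟩ := hcase S hS
        obtain ⟨e1, a1, g1⟩ := ihs S1 h1
        obtain ⟨e2, a2, g2⟩ := iht S2 h2
        exact cp_union hst a1 a2 (fun i hi j hj => k3 _ (g1 i hi) _ (g2 j hj))
          (fun i hi => k1 (g1 i hi)) fun i hi => k2 (g2 i hi)
      | hT s c hc ih =>
        intro S hS
        obtain ⟨a, ha, S1, h1, k1, k2⟩ := t4 S hS
        obtain ⟨e, a1, g1⟩ := ih S1 h1
        exact cp_top hc a1 (hR.refl a) (fun i hi => ⟨(k2 _ (g1 i hi)).1, fun h =>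
          (k2 _ (g1 i hi)).2 (hR.antisymm _ _ h (k2 _ (g1 i hi)).1)⟩) (fun i hi => k1 (g1 i hi)) ha
      | hB s c hc ih =>
        intro S hS
        obtain ⟨a, ha, S1, h1, k1, k2⟩ := t3 S hS
        obtain ⟨e, a1, g1⟩ := ih S1 h1
        exact cp_bot hc a1 (hR.refl a) (fun i hi => ⟨(k2 _ (g1 i hi)).1, fun h =>
          (k2 _ (g1 i hi)).2 (hR.antisymm _ _ (k2 _ (g1 i hi)).1 h)⟩) (fun i hi => k1 (g1 i hi)) ha
    obtain ⟨S, hS⟩ := hne
    exact cpm (key S hS) fun _ _ => trivial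
  push Not at hcase
  obtain ⟨S0, hS0, hno⟩ := hcase
  obtain ⟨W, hW, hW0, h5⟩ := t5 S0 hS0
  obtain ⟨G, hG⟩ : ∃ G : Set ℕ → ℕ → Prop, ∀ S a,
      G S a ↔ a ∈ S ∧ ∃ S' ∈ Th, S' ⊆ S ∧ ∀ y ∈ S', R a y := ⟨_, fun _ _ => Iff.rfl⟩
  have gm : ∀ {S S' a}, S ⊆ S' → G S a → G S' a := by
    intro S S' a h
    rw [hG, hG]
    exact fun ⟨k1, T, k2, k3, k4⟩ => ⟨h k1, T, k2, k3.trans h, k4⟩
  have gex : ∀ S ∈ Th, ∃ a, G S a := fun S hS => by
    obtain ⟨a, ha, S1, h1, k1, k2⟩ := t3 S hS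
    exact ⟨a, (hG _ _).2 ⟨ha, S1, h1, k1, fun y hy => (k2 y hy).1⟩⟩
  have f1 : ∀ S a, S ⊆ W → G S a → ∀ T ∈ Th, T ⊆ W → (∀ y ∈ S, ∀ z ∈ T, ¬ R z y) →
      ∃ T' ∈ Th, T' ⊆ T ∧ ∀ z ∈ T', R a z ∧ ¬ R z a := by
    intro S a hS ha T hT hTW hsep
    obtain ⟨k1, S', k2, k3, k4⟩ := (hG _ _).1 ha
    obtain ⟨T', l1, l2, l3⟩ := t2 T hT a
    obtain ⟨y, hy, z, hz, h⟩ := hno S' k2 T' l1 (k3.trans (hS.trans hW0)) (l2.trans (hTW.trans hW0))
    have h1 : R y z := by_contra fun k => hsep y (k3 hy) z (l2 hz) (h k)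
    exact ⟨T', l1, l2, fun w hw => ⟨(l3 z hz w hw).1.1 (hR.trans _ _ _ (k4 y hy) h1),
      hsep a k1 w (l2 hw)⟩⟩
  have f2 : ∀ S a, S ⊆ W → G S a → ∀ T ∈ Th, T ⊆ W → (∀ y ∈ T, ∀ z ∈ S, ¬ R z y) →
      ∃ T' ∈ Th, T' ⊆ T ∧ ∀ z ∈ T', ¬ R z a ∧ ¬ R a z := by
    intro S a hS ha T hT hTW hsep
    obtain ⟨k1, S', k2, k3, k4⟩ := (hG _ _).1 ha
    obtain ⟨T', l1, l2, l3⟩ := t2 T hT a
    refine ⟨T', l1, l2, fun w hw => ⟨fun h => ?_, hsep w (l2 hw) a k1⟩⟩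
    exact h5 a T' l1 S' k2 (l2.trans hTW) (k3.trans hS)
      (fun y hy => ⟨(l3 w hw y hy).2.1 h, hsep y (l2 hy) a k1⟩) k4
  have many : ∀ (P : ℕ → ℕ → Prop) (T : Set ℕ) (s : Finset α) (e : α → ℕ), T ∈ Th →
      (∀ i ∈ s, ∀ T1 ∈ Th, T1 ⊆ T → ∃ T' ∈ Th, T' ⊆ T1 ∧ ∀ z ∈ T', P (e i) z) →
      ∃ T' ∈ Th, T' ⊆ T ∧ ∀ i ∈ s, ∀ z ∈ T', P (e i) z := by
    intro P T s e hT
    induction s using Finset.induction_on with
    | empty => exact fun _ => ⟨T, hT, subset_rfl, fun i hi => by simp at hi⟩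
    | insert i s _ ih =>
      intro h
      obtain ⟨T1, k1, k2, k3⟩ := ih fun j hj => h j (by simp [hj])
      obtain ⟨T2, l1, l2, l3⟩ := h i (by simp) T1 k1 k2
      refine ⟨T2, l1, l2.trans k2, fun j hj z hz => ?_⟩
      rcases Finset.mem_insert.1 hj with rfl | hj
      · exact l3 z hz
      · exact k3 j hj z (l2 hz)
  have key : ∀ S ∈ Th, S ⊆ W → Cp R s (G S) := by
    induction s using tp_ind hX with
    | h0 => exact fun S _ _ => cp_empty _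
    | hU s t hst ihs iht =>
      intro S hS hSW
      obtain ⟨S1, h1, S2, h2, k1, k2, k3⟩ := t1 S hS
      obtain ⟨e2, a2, g2⟩ := iht S2 h2 (k2.trans hSW)
      obtain ⟨T, l1, l2, l3⟩ := many (fun a z => ¬ R z a ∧ ¬ R a z) S1 t e2 h1
        fun i hi T1 m1 m2 => f2 S2 _ (k2.trans hSW) (g2 i hi) T1 m1 (m2.trans (k1.trans hSW))
          fun y hy => k3 y (m2 hy)
      obtain ⟨e1, a1, g1⟩ := ihs T l1 (l2.trans (k1.trans hSW))
      exact cp_union hst a1 a2 (fun i hi j hj => l3 j hj _ ((hG _ _).1 (g1 i hi)).1)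
        (fun i hi => gm (l2.trans k1) (g1 i hi)) fun i hi => gm k2 (g2 i hi)
    | hT s c hc ih =>
      intro S hS hSW
      obtain ⟨S1, h1, S2, h2, k1, k2, k3⟩ := t1 S hS
      obtain ⟨e, a1, g1⟩ := ih S1 h1 (k1.trans hSW)
      obtain ⟨T, l1, l2, l3⟩ := many (fun a z => R a z ∧ ¬ R z a) S2 s e h2
        fun i hi T1 m1 m2 => f1 S1 _ (k1.trans hSW) (g1 i hi) T1 m1 (m2.trans (k2.trans hSW))
          fun y hy z hz => k3 y hy z (m2 hz)
      obtain ⟨b, hb⟩ := gex T l1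
      exact cp_top hc a1 (hR.refl b) (fun i hi => l3 i hi b ((hG _ _).1 hb).1)
        (fun i hi => gm k1 (g1 i hi)) (gm (l2.trans k2) hb)
    | hB s c hc ih =>
      intro S hS hSW
      obtain ⟨S1, h1, S2, h2, k1, k2, k3⟩ := t1 S hS
      obtain ⟨a, ha⟩ := gex S1 h1
      obtain ⟨T, l1, l2, l3⟩ := f1 S1 a (k1.trans hSW) ha S2 h2 (k2.trans hSW) k3
      obtain ⟨e, a1, g1⟩ := ih T l1 (l2.trans (k2.trans hSW))
      exact cp_bot hc a1 (hR.refl a) (fun i hi => l3 _ ((hG _ _).1 (g1 i hi)).1)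
        (fun i hi => gm (l2.trans k2) (g1 i hi)) (gm k1 ha)
  exact cpm (key W hW subset_rfl) fun _ _ => trivial

/-- The schedule of modes: lower root, upper root, type of the next number. -/
def md (k : ℕ) : ℕ := if k % 3 = 0 then 0 else if k % 3 = 1 then 1 else k / 3 + 2

theorem md_zero (k : ℕ) : md (3 * k) = 0 := by unfold md; rw [if_pos (by omega)]
theorem md_one (k : ℕ) : md (3 * k + 1) = 1 := by
  unfold md; rw [if_neg (by omega), if_pos (by omega)]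
theorem md_two (k : ℕ) : md (3 * k + 2) = k + 2 := by
  unfold md; rw [if_neg (by omega), if_neg (by omega)]; omega
theorem md_inf (k : ℕ) : ∃ k', k ≤ k' ∧ md k' = 1 := ⟨3 * k + 1, by omega, md_one k⟩
theorem c_md : ComputableIn ∅ md := by unfold md; fun_prop

section
variable {R : ℕ → ℕ → Prop} {g : ℚ → ℕ}

theorem g_le (hg : ∀ p q, p < q → LK R md (g p) (g q) ∧ g p ≠ g q) {p q : ℚ} (h : p ≤ q) :
    LK R md (g p) (g q) := by
  rcases h.lt_or_eq with h | h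
  · exact (hg p q h).1
  · rw [h]; exact fun _ _ => le_rfl

theorem descend (hg : ∀ p q, p < q → LK R md (g p) (g q) ∧ g p ≠ g q) {k k' : ℕ} {p q : ℚ}
    (h : p < q) (hc : cls R md k (g p) = cls R md k (g q)) (hk : k ≤ k') :
    ∃ p' q', p ≤ p' ∧ p' < q' ∧ q' ≤ q ∧ cls R md k' (g p') = cls R md k' (g q') := by
  induction k', hk using Nat.le_induction with
  | base => exact ⟨p, q, le_rfl, h, le_rfl, hc⟩
  | succ n _ ih =>
    obtain ⟨a, b, h1, h2, h3, h4⟩ := ih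
    have hm : ∀ r ∈ Set.Icc a b, cls R md n (g a) = cls R md n (g r) :=
      fun r hr => convex h4 (g_le hg hr.1) (g_le hg hr.2)
    obtain ⟨x, hx, y, hy, h5, h6⟩ := (Set.Icc_infinite h2).exists_lt_map_eq_of_mapsTo
      (f := fun r => kz R md n (g r)) (t := Set.Icc (kz R md n (g a)) (kz R md n (g b)))
      (fun r hr => ⟨g_le hg hr.1 n (hm r hr), g_le hg hr.2 n ((hm r hr).symm.trans h4)⟩)
      (Set.finite_Icc _ _)
    exact ⟨x, y, h1.trans hx.1, h5, hy.2.trans h3,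
      (cls_succ_iff n _ _).2 ⟨(hm x hx).symm.trans (hm y hy), h6⟩⟩

/-- Thick classes. -/
def Thick (R : ℕ → ℕ → Prop) (g : ℚ → ℕ) : Set (Set ℕ) :=
  {S | ∃ k p q, p < q ∧ cls R md k (g p) = cls R md k (g q) ∧
    S = {y | cls R md k y = cls R md k (g p)}}

theorem shrink (hg : ∀ p q, p < q → LK R md (g p) (g q) ∧ g p ≠ g q) {S : Set ℕ}
    (hS : S ∈ Thick R g) : ∃ k0, ∀ k, k0 ≤ k → ∃ p q, p < q ∧
      cls R md k (g p) = cls R md k (g q) ∧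
      ∀ k1, k0 ≤ k1 → ∀ y, cls R md k1 y = cls R md k1 (g p) → y ∈ S := by
  obtain ⟨k0, p, q, h1, h2, rfl⟩ := hS
  refine ⟨k0, fun k hk => ?_⟩
  obtain ⟨a, b, k1, k2, k3, k4⟩ := descend hg h1 h2 hk
  exact ⟨a, b, k2, k4, fun n hn y hy => (cls_mono hn hy).trans
    (convex h2 (g_le hg k1) (g_le hg (k2.le.trans k3))).symm⟩

theorem thick_split (hR : IsPartialOrder ℕ R)
    (hg : ∀ p q, p < q → LK R md (g p) (g q) ∧ g p ≠ g q) (S : Set ℕ) (hS : S ∈ Thick R g) :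
    ∃ S1 ∈ Thick R g, ∃ S2 ∈ Thick R g, S1 ⊆ S ∧ S2 ⊆ S ∧ ∀ y ∈ S1, ∀ z ∈ S2, ¬ R z y := by
  obtain ⟨k0, p, q, h1, h2, rfl⟩ := hS
  have hL := LK_linExt hR md_inf
  have c1 : p < (p + q) / 2 := by linarith
  have c2 : (p + q) / 2 < q := by linarith
  have hm : ∀ r, p ≤ r → r ≤ q → cls R md k0 (g p) = cls R md k0 (g r) :=
    fun r a b => convex h2 (g_le hg a) (g_le hg b)
  obtain ⟨k, hk⟩ := deep hR md_inf (g ((p + q) / 2) + 1)
  obtain ⟨a, b, a1, a2, a3, a4⟩ := descend hg c1 (hm _ c1.le c2.le) (le_max_left k0 k)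
  obtain ⟨c, d, b1, b2, b3, b4⟩ :=
    descend hg c2 ((hm _ c1.le c2.le).symm.trans h2) (le_max_left k0 k)
  have hne : cls R md (max k0 k) (g a) ≠ cls R md (max k0 k) (g c) := by
    intro h
    have h3 := convex h (g_le hg (a2.le.trans a3)) (g_le hg b1)
    have := hk _ _ (cls_mono (le_max_right k0 k) h3.symm) (hg _ _ (a2.trans_le a3)).2.symm
    omega
  refine ⟨_, ⟨_, a, b, a2, a4, rfl⟩, _, ⟨_, c, d, b2, b4, rfl⟩, fun y hy => ?_, fun y hy => ?_,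
    fun y hy z hz h => ?_⟩
  · exact (cls_mono (le_max_left k0 k) hy).trans (hm a a1 (by linarith)).symm
  · exact (cls_mono (le_max_left k0 k) hy).trans (hm c (by linarith) (by linarith)).symm
  · have h3 := LK_transfer hne (g_le hg (by linarith)) hy hz
    have h4 := hL.1.antisymm _ _ h3 (hL.2 _ _ h)
    subst h4
    exact hne (hy.symm.trans hz)

/-- `c'` codes a thick class inside the class coded by `c`. -/
def Vsub (R : ℕ → ℕ → Prop) (G : ℕ → ℕ) (c c' : ℕ) : Prop :=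
  rlt c'.unpair.2.unpair.1 c'.unpair.2.unpair.2 ∧
    cls R md c'.unpair.1 (G c'.unpair.2.unpair.1) = cls R md c'.unpair.1 (G c'.unpair.2.unpair.2) ∧
    c.unpair.1 ≤ c'.unpair.1 ∧
    cls R md c.unpair.1 (G c'.unpair.2.unpair.1) = cls R md c.unpair.1 (G c.unpair.2.unpair.1)

theorem p_vsub {α : Type} [Primcodable α] (hR : PIn ∅ fun z : ℕ × ℕ => R z.1 z.2) {G : ℕ → ℕ}
    (hG : ComputableIn ∅ G) {f h : α → ℕ} (hf : ComputableIn ∅ f) (hh : ComputableIn ∅ h) :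
    PIn ∅ fun a => Vsub R G (f a) (h a) := by
  have hC : ∀ {u v : α → ℕ}, ComputableIn ∅ u → ComputableIn ∅ v →
      ComputableIn ∅ fun a => cls R md (u a) (v a) :=
    fun hu hv => c_comp (c_cls hR c_md) (c_pair hu hv)
  exact p_and (by fun_prop) (p_and (p_eq (hC (by fun_prop) (by fun_prop))
    (hC (by fun_prop) (by fun_prop))) (p_and (by fun_prop)
    (p_eq (hC (by fun_prop) (by fun_prop)) (hC (by fun_prop) (by fun_prop)))))

theorem unif' {j k x y : ℕ} (hk : 3 * j + 3 ≤ k) (h : cls R md k x = cls R md k y) :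
    (R j x ↔ R j y) ∧ (R x j ↔ R y j) := unif (md_two j) (cls_mono hk h)

theorem thick_gap (hR : CompPoset R) (hsc : CompScattered R)
    (hc : ComputableIn ∅ fun n => g (ratOf n))
    (hg : ∀ p q, p < q → LK R md (g p) (g q) ∧ g p ≠ g q) (S0 : Set ℕ) (hS0 : S0 ∈ Thick R g) :
    ∃ S ∈ Thick R g, S ⊆ S0 ∧ ∀ a, ∀ S1 ∈ Thick R g, ∀ S2 ∈ Thick R g, S1 ⊆ S → S2 ⊆ S →
      (∀ y ∈ S1, R y a ∧ ¬ R a y) → ¬ ∀ y ∈ S2, R a y := by
  by_contra hcon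
  push Not at hcon
  have hRp : PIn ∅ fun z : ℕ × ℕ => R z.1 z.2 := p_of_computablePred hR.2
  obtain ⟨G, hG⟩ : ∃ G : ℕ → ℕ, ∀ n, g (ratOf n) = G n := ⟨_, fun _ => rfl⟩
  have hG' : ComputableIn ∅ G := ci_of_eq hc hG
  obtain ⟨k0, p0, q0, h1, h2, rfl⟩ := hS0
  obtain ⟨a0, rfl⟩ := ratOf_surj p0
  obtain ⟨b0, rfl⟩ := ratOf_surj q0
  have sub : ∀ c, ∀ T ∈ Thick R g,
      T ⊆ {y | cls R md c.unpair.1 y = cls R md c.unpair.1 (G c.unpair.2.unpair.1)} → ∀ j,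
      ∃ c', Vsub R G c c' ∧ j ≤ c'.unpair.1 ∧ G c'.unpair.2.unpair.1 ∈ T := by
    intro c T hT hsub j
    obtain ⟨k1, hk1⟩ := shrink hg hT
    obtain ⟨p, q, l1, l2, l3⟩ := hk1 (max k1 (max c.unpair.1 j)) (by omega)
    obtain ⟨a, rfl⟩ := ratOf_surj p
    obtain ⟨b, rfl⟩ := ratOf_surj q
    have l4 : G a ∈ T := l3 k1 le_rfl _ (by rw [hG])
    refine ⟨Nat.pair (max k1 (max c.unpair.1 j)) (Nat.pair a b), ?_, ?_⟩
    · unfold Vsub
      simp only [Nat.unpair_pair]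
      exact ⟨(rlt_iff _ _).2 l1, by rw [← hG, ← hG]; exact l2, by omega, hsub l4⟩
    · simp only [Nat.unpair_pair]
      exact ⟨by omega, l4⟩
  obtain ⟨Z, hZ, hz⟩ := p_choose (O := ∅)
    (P := fun c w : ℕ => Vsub R G (Nat.pair k0 (Nat.pair a0 b0)) c →
      Vsub R G c w.unpair.2.unpair.1 ∧ Vsub R G c w.unpair.2.unpair.2 ∧
      3 * w.unpair.1 + 3 ≤ w.unpair.2.unpair.1.unpair.1 ∧
      3 * w.unpair.1 + 3 ≤ w.unpair.2.unpair.2.unpair.1 ∧
      R (G w.unpair.2.unpair.1.unpair.2.unpair.1) w.unpair.1 ∧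
      ¬ R w.unpair.1 (G w.unpair.2.unpair.1.unpair.2.unpair.1) ∧
      R w.unpair.1 (G w.unpair.2.unpair.2.unpair.2.unpair.1))
    (p_imp (p_vsub hRp hG' (by fun_prop) (by fun_prop))
      (p_and (p_vsub hRp hG' (by fun_prop) (by fun_prop))
      (p_and (p_vsub hRp hG' (by fun_prop) (by fun_prop)) (p_and (by fun_prop) (p_and (by fun_prop)
      (p_and (p_rel hRp (by fun_prop) (by fun_prop))
      (p_and (p_not (p_rel hRp (by fun_prop) (by fun_prop)))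
        (p_rel hRp (by fun_prop) (by fun_prop)))))))))
    (fun c => by
      by_cases hv : Vsub R G (Nat.pair k0 (Nat.pair a0 b0)) c
      · obtain ⟨v1, v2, v3, v4⟩ := hv
        simp only [Nat.unpair_pair] at v3 v4
        obtain ⟨a, S1, m1, S2, m2, m3, m4, m5, m6⟩ := hcon
          {y | cls R md c.unpair.1 y = cls R md c.unpair.1 (G c.unpair.2.unpair.1)}
          ⟨_, _, _, (rlt_iff _ _).1 v1, by rw [hG, hG]; exact v2, by rw [hG]⟩
          fun y hy => by rw [hG]; exact (cls_mono v3 hy).trans v4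
        obtain ⟨c1, n1, n2, n3⟩ := sub c S1 m1 m3 (3 * a + 3)
        obtain ⟨c2, o1, o2, o3⟩ := sub c S2 m2 m4 (3 * a + 3)
        refine ⟨Nat.pair a (Nat.pair c1 c2), fun _ => ?_⟩
        simp only [Nat.unpair_pair]
        exact ⟨n1, o1, n2, o2, (m5 _ n3).1, (m5 _ n3).2, m6 _ o3⟩
      · exact ⟨0, fun h => absurd h hv⟩)
  have hv : ∀ c b, Vsub R G (Nat.pair k0 (Nat.pair a0 b0)) c →
      Vsub R G c (if b = 0 then (Z c).unpair.2.unpair.1 else (Z c).unpair.2.unpair.2) := by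
    intro c b h
    split_ifs
    · exact ((hz c).1 h).1
    · exact ((hz c).1 h).2.1
  refine eta_of_tree
    (nx := fun c b => if b = 0 then (Z c).unpair.2.unpair.1 else (Z c).unpair.2.unpair.2)
    (pt := fun c => G c.unpair.2.unpair.1) (Vsub R G (Nat.pair k0 (Nat.pair a0 b0)))
    (fun c y => cls R md c.unpair.1 y = cls R md c.unpair.1 (G c.unpair.2.unpair.1))
    (Nat.pair k0 (Nat.pair a0 b0)) (by fun_prop) (by fun_prop) ?_ (fun c b _ h => ?_)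
    (fun c _ => rfl) (fun c b y _ h k => ?_) (fun c y z h k1 k2 => ?_) hsc
  · refine ⟨?_, ?_, le_rfl, rfl⟩ <;> simp only [Nat.unpair_pair]
    · exact (rlt_iff _ _).2 h1
    · rw [← hG, ← hG]; exact h2
  · obtain ⟨u1, u2, u3, u4⟩ := hv c b h
    exact ⟨u1, u2, h.2.2.1.trans u3, (cls_mono h.2.2.1 u4).trans h.2.2.2⟩
  · obtain ⟨-, -, u3, u4⟩ := hv c b h
    exact (cls_mono u3 k).trans u4
  · obtain ⟨-, -, u1, u2, u3, u4, u5⟩ := (hz c).1 h
    simp only [if_true, one_ne_zero, if_false] at k1 k2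
    have w1 := unif' u1 k1
    have w2 := (unif' u2 k2).1.2 u5
    exact ⟨hR.1.trans _ _ _ (w1.2.2 u3) w2, fun e => u4 (w1.1.1 (e ▸ w2))⟩

end

theorem sc_pos {R : ℕ → ℕ → Prop} (hR : CompPoset R) (hsc : CompScattered R)
    {α : Type} [PartialOrder α] [Finite α]
    (hX : ∀ a b c d : α, a ≤ c → b ≤ c → b ≤ d → (a ≤ b ∨ b ≤ a) ∨ (c ≤ d ∨ d ≤ c))
    (hno : IsEmpty (((· ≤ ·) : α → α → Prop) ↪r R)) :
    ∃ L, LinExt R L ∧ CompScattered L ∧ Pi01 L := by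
  refine ⟨LK R md, LK_linExt hR.1 md_inf, ?_, pi01_of_p (p_LK hR c_md md_inf)⟩
  rintro ⟨g, hc, -, hg⟩
  have _ := Fintype.ofFinite α
  refine hno.false (cp_relEmb hR.1.refl (tp_copy hR.1 (Th := Thick R g)
    ⟨_, 0, 0, 1, one_pos, rfl, rfl⟩ (thick_split hR.1 hg) (fun S hS j => ?_) (fun S hS => ?_)
    (fun S hS => ?_) (thick_gap hR hsc hc.computableIn hg) hX Finset.univ)).some
  · obtain ⟨k0, hk⟩ := shrink hg hS
    obtain ⟨p, q, h1, h2, h3⟩ := hk (max k0 (3 * j + 3)) (by omega)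
    exact ⟨_, ⟨_, p, q, h1, h2, rfl⟩, fun y hy => h3 _ (by omega) y hy,
      fun y hy z hz => unif' (le_max_right k0 _) (hy.trans hz.symm)⟩
  · obtain ⟨k0, hk⟩ := shrink hg hS
    obtain ⟨p, q, h1, h2, h3⟩ := hk (3 * k0 + 1) (by omega)
    obtain ⟨a, -, h4, h5⟩ := root_low hR.1 (md_zero k0) (hg p q h1).2 h2
    exact ⟨a, h3 _ (by omega) a h4, _, ⟨_, p, q, h1, h2, rfl⟩,
      fun y hy => h3 _ (by omega) y hy, h5⟩
  · obtain ⟨k0, hk⟩ := shrink hg hS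
    obtain ⟨p, q, h1, h2, h3⟩ := hk (3 * k0 + 1 + 1) (by omega)
    obtain ⟨a, -, h4, h5⟩ := root_high hR.1 (md_one k0) (hg p q h1).2 h2
    exact ⟨a, h3 _ (by omega) a h4, _, ⟨_, p, q, h1, h2, rfl⟩,
      fun y hy => h3 _ (by omega) y hy, h5⟩

end Pool.Agent.MP_f7ace6_lc.Dich
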