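import Pool.Agent.MP_f7ace6_lc.DSc

set_option autoImplicit false

namespace Pool.Agent.MP_f7ace6_lc.Dich

open Encodable Classical Nat.Partrec

/-- Strategy `j` has ordered the pair at location `l` by time `t`. -/
def Cl1 (j : ℕ) (l : List ℕ) (t : ℕ) : Prop :=
  Code.evaln t (Denumerable.ofNat Code j) (Nat.pair (mk j l 0) (mk j l 1)) ≠ Option.none

/-- `t` is the closing time of location `l`. -/
def Tm (j : ℕ) (l : List ℕ) (t : ℕ) : Prop := Cl1 j l t ∧ Ball t fun t' => ¬ Cl1 j l t'

/-- Valid locations. -/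
def Vl (j : ℕ) (l : List ℕ) : Prop := Ball l.length fun i => Tm j (l.take i) (l.getD i 0 / 2)

/-- The label of the element used in direction `d`. -/
def side (j : ℕ) (l : List ℕ) (t d : ℕ) : ℕ :=
  if ev t j (Nat.pair (mk j l 0) (mk j l 1)) = 1 then 1 - d else d

/-- The element `a` at a shorter location is linked to `b` in direction `d`. -/
def Lq (a b d : ℕ) : Prop :=
  a.unpair.1 = b.unpair.1 ∧ Pre (loc a) (loc b) ∧ Vl b.unpair.1 (loc b) ∧
    (loc b).getD (loc a).length 0 % 2 = d ∧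
    a.unpair.2.unpair.2 = side a.unpair.1 (loc a) ((loc b).getD (loc a).length 0 / 2) d

/-- The poset. -/
def PQ (x y : ℕ) : Prop := x = y ∨ Lq x y 0 ∨ Lq y x 1

theorem tm_unique {j t t' : ℕ} {l : List ℕ} (h : Tm j l t) (h' : Tm j l t') : t = t' := by
  rcases lt_trichotomy t t' with k | k | k
  · exact absurd h.1 (h'.2 t k)
  · exact k
  · exact absurd h'.1 (h.2 t' k)

theorem Vl.pre {j : ℕ} {m l : List ℕ} (h : Vl j l) (hp : Pre m l) : Vl j m := by
  intro i hi
  have := h i (hi.trans hp.1)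
  beta_reduce at this ⊢
  rwa [hp.take hi.le, hp.getD hi] at this

theorem mk_eta (a : ℕ) : mk a.unpair.1 (loc a) a.unpair.2.unpair.2 = a := by
  simp [mk, loc]

section
variable {a b c d d' : ℕ}

theorem Lq.time (h : Lq a b d) :
    Tm a.unpair.1 (loc a) ((loc b).getD (loc a).length 0 / 2) := by
  have := h.2.2.1 _ h.2.1.1
  beta_reduce at this
  rwa [h.2.1.2, ← h.1] at this

theorem lq_dir (h : Lq a b d) (h' : Lq a c d') : d = d' := by
  have e := tm_unique h.time h'.time
  have h1 := h.2.2.2.2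
  have h2 := h'.2.2.2.2
  have h3 := h.2.2.2.1
  have h4 := h'.2.2.2.1
  rw [e, h2] at h1
  unfold side at h1
  split_ifs at h1 <;> omega

theorem lq_up (h : Lq a b d) (h' : Lq b c d') : Lq a c d := by
  obtain ⟨h1, h2, -, h4, h5⟩ := h
  refine ⟨h1.trans h'.1, h2.trans h'.2.1, h'.2.2.1, ?_, ?_⟩ <;> rwa [h'.2.1.getD h2.1]

theorem lq_mid (h : Lq a c d) (h' : Lq b c d') (hl : (loc a).length < (loc b).length) :
    Lq a b d := by
  obtain ⟨h1, h2, h3, h4, h5⟩ := h
  refine ⟨h1.trans h'.1.symm, h2.of_lt h'.2.1 hl, h'.1 ▸ h3.pre h'.2.1, ?_, ?_⟩ <;>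
    rwa [← h'.2.1.getD hl]

theorem lq_eq (h : Lq a c d) (h' : Lq b c d') (hl : (loc a).length = (loc b).length) :
    d = d' ∧ a = b := by
  have e1 : d = d' := by rw [← h.2.2.2.1, ← h'.2.2.2.1, hl]
  have e2 : loc a = loc b := by rw [← h.2.1.2, ← h'.2.1.2, hl]
  have e3 : a.unpair.1 = b.unpair.1 := h.1.trans h'.1.symm
  refine ⟨e1, ?_⟩
  rw [← mk_eta a, ← mk_eta b, h.2.2.2.2, h'.2.2.2.2, e1, e2, e3]

theorem Lq.len (h : Lq a b d) : (loc a).length < (loc b).length := h.2.1.1

theorem lq_cmp (h : Lq a c d) (h' : Lq b c d) : a = b ∨ Lq a b d ∨ Lq b a d := by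
  rcases lt_trichotomy (loc a).length (loc b).length with k | k | k
  · exact Or.inr (Or.inl (lq_mid h h' k))
  · exact Or.inl (lq_eq h h' k).2
  · exact Or.inr (Or.inr (lq_mid h' h k))

end

theorem pq_order : IsPartialOrder ℕ PQ where
  refl x := Or.inl rfl
  trans x y z h1 h2 := by
    rcases h1 with rfl | h1 | h1
    · exact h2
    · rcases h2 with rfl | h2 | h2
      · exact Or.inr (Or.inl h1)
      · exact Or.inr (Or.inl (lq_up h1 h2))
      · rcases lt_trichotomy (loc x).length (loc z).length with k | k | k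
        · exact Or.inr (Or.inl (lq_mid h1 h2 k))
        · exact absurd (lq_eq h1 h2 k).1 (by decide)
        · exact Or.inr (Or.inr (lq_mid h2 h1 k))
    · rcases h2 with rfl | h2 | h2
      · exact Or.inr (Or.inr h1)
      · exact absurd (lq_dir h1 h2) (by decide)
      · exact Or.inr (Or.inr (lq_up h2 h1))
  antisymm x y h1 h2 := by
    rcases h1 with rfl | h1 | h1
    · rfl
    · rcases h2 with rfl | h2 | h2
      · rfl
      · exact absurd (h1.len.trans h2.len) (lt_irrefl _)
      · exact absurd (lq_dir h1 h2) (by decide)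
    · rcases h2 with rfl | h2 | h2
      · rfl
      · exact absurd (lq_dir h1 h2) (by decide)
      · exact absurd (h1.len.trans h2.len) (lt_irrefl _)

theorem pq_tp (a b c d : ℕ) (h1 : PQ a c) (h2 : PQ b c) (h3 : PQ b d) :
    (PQ a b ∨ PQ b a) ∨ (PQ c d ∨ PQ d c) := by
  rcases h2 with rfl | h2 | h2
  · exact Or.inl (Or.inl h1)
  · left
    rcases h1 with rfl | h1 | h1
    · exact Or.inr (Or.inr (Or.inl h2))
    · rcases lq_cmp h1 h2 with k | k | k
      · exact Or.inl (Or.inl k)
      · exact Or.inl (Or.inr (Or.inl k))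
      · exact Or.inr (Or.inr (Or.inl k))
    · exact Or.inr (Or.inr (Or.inl (lq_up h2 h1)))
  · right
    rcases h3 with rfl | h3 | h3
    · exact Or.inr (Or.inr (Or.inr h2))
    · exact Or.inr (Or.inr (Or.inr (lq_up h2 h3)))
    · rcases lq_cmp h2 h3 with k | k | k
      · exact Or.inl (Or.inl k)
      · exact Or.inr (Or.inr (Or.inr k))
      · exact Or.inl (Or.inr (Or.inr k))

section
variable {α : Type} [Primcodable α]

theorem p_cl1 {f h : α → ℕ} {g : α → List ℕ} (hf : ComputableIn ∅ f)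
    (hg : ComputableIn ∅ g) (hh : ComputableIn ∅ h) : PIn ∅ fun a => Cl1 (f a) (g a) (h a) :=
  p_ne (c_evaln hh (c_ofNat hf) (by fun_prop)) (c_const _)

theorem p_tm {f h : α → ℕ} {g : α → List ℕ} (hf : ComputableIn ∅ f)
    (hg : ComputableIn ∅ g) (hh : ComputableIn ∅ h) : PIn ∅ fun a => Tm (f a) (g a) (h a) :=
  p_and (p_cl1 hf hg hh) (p_ball hh (p_not (p_cl1 (by fun_prop) (by fun_prop) (by fun_prop))))

theorem p_lq {f g : α → ℕ} (d : ℕ) (hf : ComputableIn ∅ f) (hg : ComputableIn ∅ g) :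
    PIn ∅ fun a => Lq (f a) (g a) d := by
  refine p_and (by fun_prop) (p_and (by fun_prop) (p_and (p_ball (by fun_prop)
    (p_tm (by fun_prop) (by fun_prop) (by fun_prop))) (p_and (by fun_prop) ?_)))
  unfold side
  fun_prop

end

theorem pq_comp : CompPoset PQ :=
  ⟨pq_order, p_empty (p_or (by fun_prop)
    (p_or (p_lq 0 (by fun_prop) (by fun_prop)) (p_lq 1 (by fun_prop) (by fun_prop))))⟩

theorem pq_scattered : CompScattered PQ := by
  rintro ⟨g, -, -, hg⟩
  have hex : ∃ n, ∃ q, (loc (g q)).length = n := ⟨_, 0, rfl⟩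
  obtain ⟨q, hq⟩ := Nat.find_spec hex
  have hmin : ∀ p, (loc (g q)).length ≤ (loc (g p)).length :=
    fun p => hq ▸ Nat.find_min' hex ⟨p, rfl⟩
  obtain ⟨h1, h2⟩ := hg (q - 1) q (by linarith)
  obtain ⟨h3, h4⟩ := hg q (q + 1) (by linarith)
  have k1 := (h1.resolve_left h2).resolve_left fun h => absurd h.len (not_lt.2 (hmin _))
  have k2 := (h3.resolve_left h4).resolve_right fun h => absurd h.len (not_lt.2 (hmin _))
  exact absurd (lq_dir k1 k2) (by decide)

theorem pq_neg {L : ℕ → ℕ → Prop} (hL : LinExt PQ L) (hp : Pi01 L) : ¬ CompScattered L := by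
  have hLc := p_of_pi01 hL.1 hp
  obtain ⟨j, hj⟩ := exists_index (u := fun z => if L z.unpair.1 z.unpair.2 then 1 else 0)
    (ci_empty.1 (c_ite (p_rel hLc (by fun_prop) (by fun_prop)) (c_const 1) (c_const 0)))
  have hcl : ∀ l : List ℕ, ∃ t, Cl1 j l t := by
    intro l
    obtain ⟨T, hT⟩ := Code.evaln_complete.1 (hj (Nat.pair (mk j l 0) (mk j l 1)))
    exact ⟨T, by unfold Cl1; rw [Option.mem_def.1 hT]; simp⟩
  obtain ⟨τ, hτ, hτs⟩ := p_choose (O := ∅) (P := fun l t => Cl1 j l t)
    (p_cl1 (by fun_prop) (by fun_prop) (by fun_prop)) hcl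
  have hlo : ∀ l, L (mk j l (side j l (τ l) 1)) (mk j l (side j l (τ l) 0)) := by
    intro l
    obtain ⟨v, hv⟩ := Option.ne_none_iff_exists'.1 (hτs l).1
    have e := Part.mem_unique (hj _) (Code.evaln_sound hv)
    unfold side ev
    rw [hv, ← e]
    simp only [Nat.unpair_pair, Option.getD_some]
    by_cases h : L (mk j l 0) (mk j l 1)
    · simp [h]
    · simpa [h] using (hL.1.total _ _).resolve_left h
  have hlk : ∀ l d y, d ≤ 1 → y.unpair.1 = j → (loc y).take (l ++ [2 * τ l + d]).length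
      = l ++ [2 * τ l + d] → Vl j (loc y) → Lq (mk j l (side j l (τ l) d)) y d := by
    intro l d y hd h1 h2 h3
    have h4 := congrArg List.length h2
    simp only [List.length_take, List.length_append, List.length_singleton] at h4 h2
    have h5 : (loc y).getD l.length 0 = 2 * τ l + d := by
      rw [← getD_take _ (Nat.lt_succ_self l.length), h2]; simp
    have h6 : (loc y).take l.length = l := by
      have := congrArg (List.take l.length) h2
      simpa [List.take_take] using this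
    refine ⟨by simp [h1], ?_, h1 ▸ h3, ?_, ?_⟩
    · rw [loc_mk]; exact ⟨by omega, h6⟩
    · rw [loc_mk, h5]; omega
    · rw [lab_mk, loc_mk, fst_mk, h5, show (2 * τ l + d) / 2 = τ l by omega]
  refine eta_of_tree (σ := List ℕ) (nx := fun l b => l ++ [2 * τ l + (1 - b)])
    (pt := fun l => mk j l 0) (Vl j)
    (fun l y => y.unpair.1 = j ∧ (loc y).take l.length = l ∧ Vl j (loc y)) []
    (by fun_prop) (by fun_prop) (fun i hi => by simp at hi) (fun l b hb h i hi => ?_)
    (fun l h => by simpa using h) (fun l b y _ _ h => ⟨h.1, ?_, h.2.2⟩) fun l y z _ hy hz => ?_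
  · simp only [List.length_append, List.length_singleton] at hi
    rcases Nat.lt_succ_iff_lt_or_eq.1 hi with k | k
    · rw [List.take_append_of_le_length k.le, List.getD_append _ _ _ _ k]; exact h i k
    · rw [k, List.take_left', List.getD_append_right _ _ _ _ le_rfl]
      · simp only [Nat.sub_self, List.getD_cons_zero]
        rw [show (2 * τ l + (1 - b)) / 2 = τ l by omega]
        exact hτs l
      · rfl
  · have := congrArg (List.take l.length) h.2.1
    simpa [List.take_take] using this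
  · have l1 := hlk l 1 y le_rfl hy.1 hy.2.1 hy.2.2
    have l2 := hlk l 0 z (by omega) hz.1 hz.2.1 hz.2.2
    refine ⟨hL.1.trans _ _ _ (hL.2 _ _ (Or.inr (Or.inr l1)))
      (hL.1.trans _ _ _ (hlo l) (hL.2 _ _ (Or.inr (Or.inl l2)))), fun e => ?_⟩
    have d1 := l1.2.2.2.1
    have d2 := l2.2.2.2.1
    rw [loc_mk] at d1 d2
    rw [e] at d1
    omega

end Pool.Agent.MP_f7ace6_lc.Dich
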