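import Pool.Agent.MP_f7ace6_lc.DKeys
import Pool.Agent.MP_f7ace6_lc.DFin
import Pool.Agent.MP_f7ace6_lc.DDefs

set_option autoImplicit false

namespace Pool.Agent.MP_f7ace6_lc.Dich

open Encodable Classical Nat.Partrec

theorem pi01_of_p {L : ℕ → ℕ → Prop} (h : PIn ∅ fun z : ℕ × ℕ => L z.1 z.2) : Pi01 L :=
  ⟨fun x y _ => L x y, p_empty (p_rel h (by fun_prop) (by fun_prop)),
    fun _ _ => ⟨fun h _ => h, fun h => h 0⟩⟩

theorem p_of_pi01 {L : ℕ → ℕ → Prop} (hL : IsLinearOrder ℕ L) (h : Pi01 L) :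
    PIn ∅ fun z : ℕ × ℕ => L z.1 z.2 := by
  obtain ⟨C, hC, hs⟩ := h
  have hC' : PIn ∅ fun z : ℕ × ℕ × ℕ => C z.1 z.2.1 z.2.2 := p_of_computablePred hC
  obtain ⟨Z, hZ, hz⟩ := p_choose (O := ∅)
    (P := fun (z : ℕ × ℕ) s => z.1 = z.2 ∨ ¬ C z.1 z.2 s ∨ ¬ C z.2 z.1 s)
    (p_or (by fun_prop) (p_or
      (p_not (p_comp (g := fun z : (ℕ × ℕ) × ℕ => (z.1.1, z.1.2, z.2)) hC' (by fun_prop)))
      (p_not (p_comp (g := fun z : (ℕ × ℕ) × ℕ => (z.1.2, z.1.1, z.2)) hC' (by fun_prop)))))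
    (fun z => by
      by_contra hc
      push Not at hc
      exact (hc 0).1 (hL.antisymm _ _ ((hs _ _).2 fun s => (hc s).2.1)
        ((hs _ _).2 fun s => (hc s).2.2)))
  refine PIn.of_iff (p := fun z : ℕ × ℕ => z.1 = z.2 ∨ C z.1 z.2 (Z z)) (p_or (by fun_prop)
    (p_comp (g := fun z : ℕ × ℕ => (z.1, z.2, Z z)) hC' (by fun_prop))) fun z => ?_
  constructor
  · rintro (h | h)
    · rw [h]; exact hL.refl _
    · rcases (hz z).1 with k | k | k
      · rw [k]; exact hL.refl _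
      · exact absurd h k
      · exact (hL.total _ _).resolve_right fun h' => k ((hs _ _).1 h' _)
  · exact fun h => Or.inr ((hs _ _).1 h _)

theorem desc_seq {R : ℕ → ℕ → Prop} (hR : PIn ∅ fun z : ℕ × ℕ => R z.1 z.2) {Z : ℕ → ℕ}
    (hZ : ComputableIn ∅ Z) (m : ℕ)
    (h : ∀ n, m ≤ n → ∃ n', m ≤ n' ∧ R (Z n') (Z n) ∧ Z n' ≠ Z n) : ¬ CompWF R := by
  obtain ⟨N, hN, hs⟩ := p_choose (O := ∅)
    (P := fun n n' : ℕ => m ≤ n → m ≤ n' ∧ R (Z n') (Z n) ∧ Z n' ≠ Z n)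
    (p_imp (by fun_prop) (p_and (by fun_prop) (p_and (p_rel hR (by fun_prop) (by fun_prop))
      (by fun_prop))))
    (fun n => by
      by_cases hn : m ≤ n
      · exact (h n hn).imp fun _ k _ => k
      · exact ⟨0, fun k => absurd k hn⟩)
  let M : ℕ → ℕ := fun i => Nat.rec (motive := fun _ => ℕ) m (fun _ a => N a) i
  have hM : ComputableIn ∅ M :=
    ci_rec (f := fun n : ℕ => n) (h := fun _ _ a => N a) c_id (c_const _) (by fun_prop)
  have hm : ∀ i, m ≤ M i := by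
    intro i
    induction i with
    | zero => exact le_rfl
    | succ i ih => exact ((hs (M i)).1 ih).1
  exact fun hwf => hwf ⟨fun i => Z (M i), ci_empty.1 (by fun_prop), fun i => ((hs (M i)).1 (hm i)).2⟩

theorem p_fin {α β : Type} [Primcodable β] (s : Finset α) {P : α → β → Prop}
    (h : ∀ i ∈ s, PIn ∅ (P i)) : PIn ∅ fun a => ∀ i ∈ s, P i a := by
  induction s using Finset.induction_on with
  | empty => exact (p_const True).of_iff fun a => by simp
  | insert i s _ ih =>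
    exact (p_and (h i (by simp)) (ih fun j hj => h j (by simp [hj]))).of_iff fun a => by simp

theorem p_iff {β : Type} [Primcodable β] (q : Prop) {P : β → Prop} (h : PIn ∅ P) :
    PIn ∅ fun a => q ↔ P a :=
  (p_and (p_imp (p_const q) h) (p_imp h (p_const q))).of_iff fun _ => iff_def.symm

theorem exists_list {α : Type} [Finite α] : ∃ ix : α → ℕ, ∀ e : α → ℕ, ∃ w : ℕ,
    ∀ i, (Denumerable.ofNat (List ℕ) w).getD (ix i) 0 = e i := by
  obtain ⟨n, ⟨φ⟩⟩ := Finite.exists_equiv_fin α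
  refine ⟨fun i => φ i, fun e => ⟨encode (List.ofFn fun j : Fin n => e (φ.symm j)), fun i => ?_⟩⟩
  simp [List.getD_eq_getElem?_getD]

section
variable {L : ℕ → ℕ → Prop} {f : ℕ → ℕ}

theorem desc_le (hL : IsLinearOrder ℕ L) (hf : ∀ n, L (f (n + 1)) (f n) ∧ f (n + 1) ≠ f n)
    {a b : ℕ} (h : a ≤ b) : L (f b) (f a) := by
  induction b, h using Nat.le_induction with
  | base => exact hL.refl _
  | succ b _ ih => exact hL.trans _ _ _ (hf b).1 ih

theorem desc_not (hL : IsLinearOrder ℕ L) (hf : ∀ n, L (f (n + 1)) (f n) ∧ f (n + 1) ≠ f n)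
    {a b : ℕ} (h : a < b) : ¬ L (f a) (f b) := fun k =>
  (hf a).2 (hL.antisymm _ _ (hf a).1 (hL.trans _ _ _ k (desc_le hL hf h)))

end

/-- The window below `f m` and above some term of `f`. -/
def Win (L : ℕ → ℕ → Prop) (f : ℕ → ℕ) (m z : ℕ) : Prop := (∃ n, L (f n) z) ∧ L z (f m)

theorem windows {R : ℕ → ℕ → Prop} (hR : IsPartialOrder ℕ R) {f : ℕ → ℕ}
    (hf : ∀ n, LK R (fun _ => 1) (f (n + 1)) (f n) ∧ f (n + 1) ≠ f n) (m : ℕ) :
    ∃ p m', LK R (fun _ => 1) p (f m) ∧ ∀ z, Win (LK R fun _ => 1) f m' z → R z p ∧ p ≠ z := by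
  have hm : ∀ k : ℕ, ∃ k', k ≤ k' ∧ (fun _ : ℕ => 1) k' = 1 := fun k => ⟨k, le_rfl, rfl⟩
  have hL := (LK_linExt hR hm).1
  have stab : ∀ k, ∃ n, ∀ n', n ≤ n' →
      cls R (fun _ => 1) k (f n') = cls R (fun _ => 1) k (f n) := by
    intro k
    induction k with
    | zero => exact ⟨0, fun _ _ => rfl⟩
    | succ k ih =>
      obtain ⟨n, hn⟩ := ih
      have hex : ∃ v, ∃ n', n ≤ n' ∧ key R 1 (cls R (fun _ => 1) k) (f n') = v := ⟨_, n, le_rfl, rfl⟩
      obtain ⟨n1, h1, h2⟩ := Nat.find_spec hex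
      refine ⟨n1, fun n' h3 => ?_⟩
      have h4 := (hn n' (h1.trans h3)).trans (hn n1 h1).symm
      have h5 := desc_le hL hf h3 k h4
      have h6 := Nat.find_min' hex ⟨n', h1.trans h3, rfl⟩
      rw [cls_succ_key]
      refine ⟨h4, ?_⟩
      unfold kz at h5
      simp only [one_ne_zero, if_false] at h5
      omega
  obtain ⟨k, hk⟩ := deep hR hm (f m + 1)
  obtain ⟨n0, hn0⟩ := stab (k + 1)
  have hn : ∀ n', max n0 (m + 1) ≤ n' →
      cls R (fun _ => 1) (k + 1) (f n') = cls R (fun _ => 1) (k + 1) (f (max n0 (m + 1))) :=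
    fun n' h => (hn0 n' (by omega)).trans (hn0 _ (by omega)).symm
  have hmn : m < max n0 (m + 1) := by omega
  generalize max n0 (m + 1) = n at hn hmn
  obtain ⟨a, -, h2, h3⟩ := root_high hR (k := k) rfl (hf n).2.symm (hn (n + 1) (by omega)).symm
  refine ⟨a, n, LK_transfer (k := k) (fun h => ?_) (desc_le hL hf hmn.le) h2 rfl, ?_⟩
  · have := hk _ _ h.symm fun e => desc_not hL hf hmn (by rw [e]; exact hL.refl _)
    omega
  · rintro z ⟨⟨n', h4⟩, h5⟩
    have h6 := hL.trans _ _ _ (desc_le hL hf (le_max_left n' n)) h4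
    have h7 := hn _ (le_max_right n' n)
    exact h3 z ((convex h7 h6 h5).symm.trans h7)

theorem forest_copy {R L : ℕ → ℕ → Prop} (hR : CompPoset R) (hwf : CompWF R) (hL : LinExt R L)
    (hLc : PIn ∅ fun z : ℕ × ℕ => L z.1 z.2) {f : ℕ → ℕ} (hfc : ComputableIn ∅ f)
    (hf : ∀ n, L (f (n + 1)) (f n) ∧ f (n + 1) ≠ f n)
    (hw : ∀ m, ∃ p m', L p (f m) ∧ ∀ z, Win L f m' z → R z p ∧ p ≠ z)
    {α : Type} [PartialOrder α] [Finite α] (hV : ∀ a b c : α, a ≤ b → a ≤ c → b ≤ c ∨ c ≤ b)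
    (s : Finset α) :
    ∀ F : Finset ℕ, (∀ b ∈ F, ¬ ∃ m', ∀ y, Win L f m' y → R y b) → ∀ m,
      Cp R s fun z => Win L f m z ∧ (¬ ∃ m', ∀ y, Win L f m' y → R y z) ∧ ∀ b ∈ F, ¬ R z b := by
  have hRp : PIn ∅ fun z : ℕ × ℕ => R z.1 z.2 := p_of_computablePred hR.2
  have wmono : ∀ {a b z}, a ≤ b → Win L f b z → Win L f a z :=
    fun h k => ⟨k.1, hL.1.trans _ _ _ k.2 (desc_le hL.1 hf h)⟩
  have wself : ∀ m, Win L f m (f m) := fun m => ⟨⟨m, hL.1.refl _⟩, hL.1.refl _⟩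
  have bound : ∀ (s : Finset α) (e : α → ℕ), (∀ i ∈ s, ∃ n, L (f n) (e i)) →
      ∃ n, ∀ i ∈ s, L (f n) (e i) := by
    intro s e h
    choose! u hu using h
    exact ⟨s.sup u, fun i hi =>
      hL.1.trans _ _ _ (desc_le hL.1 hf (Finset.le_sup (f := u) hi)) (hu i hi)⟩
  induction s using forest_ind hV with
  | h0 => exact fun F _ m => cp_empty _
  | hU s t hst ihs iht =>
    intro F hF m
    obtain ⟨e1, k1, g1⟩ := ihs F hF m
    obtain ⟨n, hn⟩ := bound s e1 fun i hi => (g1 i hi).1.1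
    obtain ⟨e2, k2, g2⟩ := iht (F ∪ s.image e1) (fun b hb => by
      rcases Finset.mem_union.1 hb with h | h
      · exact hF b h
      · obtain ⟨i, hi, rfl⟩ := Finset.mem_image.1 h
        exact (g1 i hi).2.1) (max m n + 1)
    refine cp_union hst k1 k2 (fun i hi j hj => ⟨fun h => ?_, ?_⟩) g1 fun j hj =>
      ⟨wmono (by omega) (g2 j hj).1, (g2 j hj).2.1,
        fun b hb => (g2 j hj).2.2 b (Finset.mem_union_left _ hb)⟩
    · exact desc_not hL.1 hf (show n < max m n + 1 by omega)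
        (hL.1.trans _ _ _ (hn i hi) (hL.1.trans _ _ _ (hL.2 _ _ h) (g2 j hj).1.2))
    · exact (g2 j hj).2.2 _ (Finset.mem_union_right _ (Finset.mem_image_of_mem _ hi))
  | hT s c hc ih =>
    intro F hF m
    obtain ⟨ix, hix⟩ := exists_list (α := α)
    obtain ⟨E, hE⟩ : ∃ E : ℕ → α → ℕ, ∀ w i,
        E w i = (Denumerable.ofNat (List ℕ) w.unpair.2.unpair.2).getD (ix i) 0 := ⟨_, fun _ _ => rfl⟩
    have hEc : ∀ i, ComputableIn ∅ fun z : ℕ × ℕ => E z.2 i := fun i => by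
      simp only [hE]; fun_prop
    obtain ⟨Z, hZ, hz⟩ := p_choose (O := ∅)
      (P := fun m w : ℕ => L w.unpair.1 (f m) ∧ L (f w.unpair.2.unpair.1) w.unpair.1 ∧
        (∀ b ∈ F, ¬ R w.unpair.1 b) ∧
        (∀ i ∈ s, ∀ j ∈ s, (i ≤ j ↔ R (E w i) (E w j))) ∧
        ∀ i ∈ s, L (f w.unpair.2.unpair.1) (E w i) ∧ R (E w i) w.unpair.1 ∧
          ¬ R w.unpair.1 (E w i) ∧ ∀ b ∈ F, ¬ R (E w i) b)
      (p_and (p_rel hLc (by fun_prop) (by fun_prop)) (p_and (p_rel hLc (by fun_prop) (by fun_prop))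
        (p_and (p_fin F fun b _ => p_not (p_rel hRp (by fun_prop) (c_const b)))
        (p_and (p_fin s fun i _ => p_fin s fun j _ => p_iff _ (p_rel hRp (hEc i) (hEc j)))
        (p_fin s fun i _ => p_and (p_rel hLc (by fun_prop) (hEc i))
          (p_and (p_rel hRp (hEc i) (by fun_prop)) (p_and (p_not (p_rel hRp (by fun_prop) (hEc i)))
            (p_fin F fun b _ => p_not (p_rel hRp (hEc i) (c_const b))))))))))
      (fun m => by
        obtain ⟨p, m', h1, h2⟩ := hw m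
        obtain ⟨e, k1, g1⟩ := ih F hF m'
        obtain ⟨n, hn⟩ := bound s e fun i hi => (g1 i hi).1.1
        obtain ⟨w, hw⟩ := hix e
        have he : E (Nat.pair p (Nat.pair (max n m') w)) = e := funext fun i => by
          rw [hE]; simpa using hw i
        refine ⟨Nat.pair p (Nat.pair (max n m') w), ?_⟩
        simp only [Nat.unpair_pair, he]
        refine ⟨h1, hL.1.trans _ _ _ (desc_le hL.1 hf (le_max_right _ _))
          (hL.2 _ _ (h2 _ (wself m')).1), fun b hb h => hF b hb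
            ⟨m', fun y hy => hR.1.trans _ _ _ (h2 y hy).1 h⟩, k1, fun i hi => ?_⟩
        obtain ⟨h3, h4⟩ := h2 _ (g1 i hi).1
        exact ⟨hL.1.trans _ _ _ (desc_le hL.1 hf (le_max_left _ _)) (hn i hi), h3,
          fun h => h4 (hR.1.antisymm _ _ h h3), (g1 i hi).2.2⟩)
    have hwin : ∀ n, Win L f n (Z n).unpair.1 := fun n => ⟨⟨_, (hz n).1.2.1⟩, (hz n).1.1⟩
    obtain ⟨n, hn, hB⟩ : ∃ n, m ≤ n ∧ ¬ ∃ m', ∀ y, Win L f m' y → R y (Z n).unpair.1 := by
      by_contra hcon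
      push Not at hcon
      refine desc_seq hRp (Z := fun n => (Z n).unpair.1) (by fun_prop) m (fun n hn => ?_) hwf
      obtain ⟨m', hm'⟩ := hcon n hn
      obtain ⟨n1, h1⟩ := (hwin n).1
      refine ⟨max (max m m') (n1 + 1), by omega, hm' _ (wmono (by omega) (hwin _)), fun h => ?_⟩
      refine desc_not hL.1 hf (show n1 < max (max m m') (n1 + 1) by omega) (hL.1.trans _ _ _ h1 ?_)
      beta_reduce at h
      rw [← h]; exact (hwin _).2
    obtain ⟨-, -, h3, h4, h5⟩ := (hz n).1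
    refine cp_top (e := E (Z n)) hc h4 (hR.1.refl _) (fun i hi => ⟨(h5 i hi).2.1, (h5 i hi).2.2.1⟩)
      (fun i hi => ⟨⟨⟨_, (h5 i hi).1⟩, hL.1.trans _ _ _ (hL.2 _ _ (h5 i hi).2.1)
        (wmono hn (hwin n)).2⟩, ?_, (h5 i hi).2.2.2⟩) ⟨wmono hn (hwin n), hB, h3⟩
    rintro ⟨m', hm'⟩
    exact hB ⟨m', fun y hy => hR.1.trans _ _ _ (hm' y hy) (h5 i hi).2.1⟩

theorem wf_pos {R : ℕ → ℕ → Prop} (hR : CompPoset R) (hwf : CompWF R)
    {α : Type} [PartialOrder α] [Finite α] (hV : ∀ a b c : α, a ≤ b → a ≤ c → b ≤ c ∨ c ≤ b)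
    (hno : IsEmpty (((· ≤ ·) : α → α → Prop) ↪r R)) :
    ∃ L, LinExt R L ∧ CompWF L ∧ Pi01 L := by
  have hm : ∀ k : ℕ, ∃ k', k ≤ k' ∧ (fun _ : ℕ => 1) k' = 1 := fun k => ⟨k, le_rfl, rfl⟩
  have hL := LK_linExt hR.1 hm
  have hLc := p_LK hR (c_const 1) hm
  refine ⟨_, hL, ?_, pi01_of_p hLc⟩
  rintro ⟨f, hf, hd⟩
  have _ := Fintype.ofFinite α
  exact hno.false (cp_relEmb hR.1.refl (forest_copy hR hwf hL hLc hf.computableIn hd
    (windows hR.1 hd) hV Finset.univ ∅ (by simp) 0)).some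

/-- Nodes of a binary tree without computable path. -/
def Nd (n w : ℕ) : Prop :=
  w < 2 ^ n ∧ Ball n fun i => Code.evaln n (Denumerable.ofNat Code i) i ≠ some (w / 2 ^ i % 2)

/-- The tree, root on top. -/
def TO (x y : ℕ) : Prop :=
  x = y ∨ (y.unpair.1 < x.unpair.1 ∧ Nd x.unpair.1 x.unpair.2 ∧
    x.unpair.2 % 2 ^ y.unpair.1 = y.unpair.2)

theorem bit_mod {w m i : ℕ} (h : i < m) : w % 2 ^ m / 2 ^ i % 2 = w / 2 ^ i % 2 := by
  have := bt_congr (w := w % 2 ^ m) (w' := w) (s := m) (Nat.mod_mod _ _) h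
  unfold bt at this
  omega

theorem Nd.pre {n w m : ℕ} (h : Nd n w) (hm : m ≤ n) : Nd m (w % 2 ^ m) := by
  refine ⟨Nat.mod_lt _ (by positivity), fun i hi k => h.2 i (by omega) ?_⟩
  rw [bit_mod hi] at k
  exact Code.evaln_mono hm k

theorem p_nd {α : Type} [Primcodable α] {f g : α → ℕ} (hf : ComputableIn ∅ f)
    (hg : ComputableIn ∅ g) : PIn ∅ fun a => Nd (f a) (g a) := by
  unfold Nd; fun_prop

theorem to_comp : CompPoset TO := by
  refine ⟨?_, p_empty (p_or (by fun_prop) (p_and (by fun_prop)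
    (p_and (p_nd (by fun_prop) (by fun_prop)) (by fun_prop))))⟩
  exact
    { refl := fun x => Or.inl rfl
      trans := fun x y z h1 h2 => by
        rcases h1 with rfl | ⟨a1, a2, a3⟩
        · exact h2
        rcases h2 with rfl | ⟨b1, -, b3⟩
        · exact Or.inr ⟨a1, a2, a3⟩
        · exact Or.inr ⟨by omega, a2, by rw [← b3, ← a3, mod_pow_mod b1.le]⟩
      antisymm := fun x y h1 h2 => by
        rcases h1 with rfl | ⟨a1, -⟩
        · rfl
        rcases h2 with rfl | ⟨b1, -⟩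
        · rfl
        · omega }

theorem to_V (a b c : ℕ) (h1 : TO a b) (h2 : TO a c) : TO b c ∨ TO c b := by
  rcases h1 with rfl | ⟨a1, a2, a3⟩
  · exact Or.inl h2
  rcases h2 with rfl | ⟨b1, -, b3⟩
  · exact Or.inr (Or.inr ⟨a1, a2, a3⟩)
  rcases lt_trichotomy b.unpair.1 c.unpair.1 with h | h | h
  · exact Or.inr (Or.inr ⟨h, b3 ▸ a2.pre b1.le, by rw [← b3, ← a3, mod_pow_mod h.le]⟩)
  · refine Or.inl (Or.inl ?_)
    rw [← Nat.pair_unpair b, ← Nat.pair_unpair c, ← a3, ← b3, h]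
  · exact Or.inl (Or.inr ⟨h, a3 ▸ a2.pre a1.le, by rw [← b3, ← a3, mod_pow_mod h.le]⟩)

theorem to_wf : CompWF TO := by
  rintro ⟨f, hf, hd⟩
  have hf' : ComputableIn ∅ f := hf.computableIn
  have hs := fun n => (hd n).1.resolve_left (hd n).2
  have hlen : ∀ n, n ≤ (f n).unpair.1 := by
    intro n
    induction n with
    | zero => omega
    | succ n ih => have := (hs n).1; omega
  have hpre : ∀ m k, (f m).unpair.1 ≤ (f (m + k + 1)).unpair.1 ∧
      (f (m + k + 1)).unpair.2 % 2 ^ (f m).unpair.1 = (f m).unpair.2 := by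
    intro m k
    induction k with
    | zero => exact ⟨(hs m).1.le, (hs m).2.2⟩
    | succ k ih =>
      obtain ⟨h1, -, h2⟩ := hs (m + k + 1)
      exact ⟨ih.1.trans h1.le, by rw [← ih.2, ← h2, mod_pow_mod ih.1]; rfl⟩
  obtain ⟨e, he⟩ := exists_index (u := fun e => (f (e + 1)).unpair.2 / 2 ^ e % 2)
    (ci_empty.1 (by fun_prop))
  obtain ⟨T, hT⟩ := Code.evaln_complete.1 (he e)
  have hl := hlen (e + 1 + T + 1)
  refine (hs (e + 1 + T)).2.1.2 e (by omega) ?_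
  rw [← bit_mod (show e < (f (e + 1)).unpair.1 from hlen (e + 1)), (hpre (e + 1) T).2]
  exact Code.evaln_mono (by omega) hT

theorem to_neg {L : ℕ → ℕ → Prop} (hL : LinExt TO L) (hp : Pi01 L) : ¬ CompWF L := by
  have hLc := p_of_pi01 hL.1 hp
  have hex : ∀ n, ∃ w, Nd n w ∧ Ball (2 ^ n) fun v => Nd n v → L (Nat.pair n v) (Nat.pair n w) := by
    intro n
    obtain ⟨w0, hw0⟩ := exists_bits (fun i => rb n i = 1) n
    have h0 : Nd n (w0 % 2 ^ n) := by
      refine ⟨Nat.mod_lt _ (by positivity), fun i hi => ?_⟩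
      have h1 := hw0 i hi
      have h2 := rb_le n i
      unfold bt at h1
      beta_reduce
      rw [bit_mod hi, show w0 / 2 ^ i % 2 = rb n i by omega]
      exact rb_ne le_rfl i
    have key : ∀ N, ∃ w, Nd n w ∧ ∀ v < N, Nd n v → L (Nat.pair n v) (Nat.pair n w) := by
      intro N
      induction N with
      | zero => exact ⟨_, h0, fun v hv => by omega⟩
      | succ N ih =>
        obtain ⟨w, h1, h2⟩ := ih
        by_cases h3 : Nd n N ∧ L (Nat.pair n w) (Nat.pair n N)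
        · refine ⟨N, h3.1, fun v hv k => ?_⟩
          rcases Nat.lt_succ_iff_lt_or_eq.1 hv with h | h
          · exact hL.1.trans _ _ _ (h2 v h k) h3.2
          · rw [h]; exact hL.1.refl _
        · refine ⟨w, h1, fun v hv k => ?_⟩
          rcases Nat.lt_succ_iff_lt_or_eq.1 hv with h | h
          · exact h2 v h k
          · rw [h] at k ⊢
            exact (hL.1.total _ _).resolve_right fun k' => h3 ⟨k, k'⟩
    exact key _
  obtain ⟨Z, hZ, hz⟩ := p_choose (O := ∅) (p_and (p_nd (by fun_prop) (by fun_prop))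
    (p_ball (by fun_prop) (p_imp (p_nd (by fun_prop) (by fun_prop))
      (p_rel hLc (by fun_prop) (by fun_prop))))) hex
  refine fun h => h ⟨fun n => Nat.pair n (Z n), ci_empty.1 (by fun_prop), fun n => ⟨?_, fun h => ?_⟩⟩
  · have h1 := (hz (n + 1)).1.1
    refine hL.1.trans _ (Nat.pair n (Z (n + 1) % 2 ^ n)) _ (hL.2 _ _ (Or.inr ?_))
      ((hz n).1.2 _ (Nat.mod_lt _ (by positivity)) (h1.pre (by omega)))
    simpa using h1
  · have := (Nat.pair_eq_pair.1 h).1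
    omega

end Pool.Agent.MP_f7ace6_lc.Dich
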