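import Mathlib

set_option autoImplicit false

namespace Pool.Agent.MP_f7ace6_lc

/-- The total function `f` is Turing reducible to the total oracle `o`. -/
def LeT (f o : ℕ → ℕ) : Prop :=
  TuringReducible (fun n => Part.some (f n)) (fun n => Part.some (o n))

/-- The binary relation `L` on the naturals is decidable from the oracle `o`. -/
def RelIn (o : ℕ → ℕ) (L : ℕ → ℕ → Prop) : Prop :=
  ∃ χ : ℕ → ℕ, LeT χ o ∧ ∀ x y, L x y ↔ χ (Nat.pair x y) = 1

/-- `R` (read as non-strict order) is a computable poset on the naturals. -/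
def CompPoset (R : ℕ → ℕ → Prop) : Prop :=
  IsPartialOrder ℕ R ∧ ComputablePred fun p : ℕ × ℕ => R p.1 p.2

/-- `L` is a linear order on the naturals extending `R`. -/
def LinExt (R L : ℕ → ℕ → Prop) : Prop :=
  IsLinearOrder ℕ L ∧ ∀ x y, R x y → L x y

/-- No computable strictly descending sequence. -/
def CompWF (R : ℕ → ℕ → Prop) : Prop :=
  ¬ ∃ f : ℕ → ℕ, Computable f ∧ ∀ n, R (f (n + 1)) (f n) ∧ f (n + 1) ≠ f n

/-- The numbering of the rationals sending the code of a triple a, b, c to the quotient of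
a minus b by c plus one. -/
def ratOf (n : ℕ) : ℚ :=
  ((n.unpair.1 : ℚ) - (n.unpair.2.unpair.1 : ℚ)) / ((n.unpair.2.unpair.2 : ℚ) + 1)

/-- No computable order embedding of the rationals. -/
def CompScattered (R : ℕ → ℕ → Prop) : Prop :=
  ¬ ∃ g : ℚ → ℕ, Computable (fun n => g (ratOf n)) ∧ Function.Injective g ∧
      ∀ p q, p < q → R (g p) (g q) ∧ g p ≠ g q

/-- `o` computes a function that no computable function dominates. -/
def Hyperimmune (o : ℕ → ℕ) : Prop :=
  ∃ f : ℕ → ℕ, LeT f o ∧ ∀ h : ℕ → ℕ, Computable h → ∀ m, ∃ n, m ≤ n ∧ h n < f n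

/-- `o` computes a `{0,1}`-valued diagonally noncomputable function. -/
def PADegree (o : ℕ → ℕ) : Prop :=
  ∃ d : ℕ → ℕ, LeT d o ∧ ∀ e, d e ≤ 1 ∧
    d e ∉ Nat.Partrec.Code.eval (Denumerable.ofNat Nat.Partrec.Code e) e

end Pool.Agent.MP_f7ace6_lc
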